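import Pool.Agent.GH.Base

/-!
# Ghost conjecture `(2,1)`, central disc: shared definitions

One parameter `e ∈ {0, 1}` for the two discs: `e = 0`: `y = x/2` (even disc), `e = 1`:
`y = (x-1)/2` (odd disc). The nodes of the tree are the classes `c mod 2^ν`.
-/

open Filter Topology

noncomputable section

namespace GH.Cen

/-! ### Hulls (integer valued) -/

/-- `h` is the lower convex hull of `f` (both integer valued; `h` touches `f` at `0` and
arbitrarily far away). -/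
structure IsHull (f h : ℕ → ℤ) : Prop where
  le : ∀ n, h n ≤ f n
  zero : h 0 = f 0
  conv : ∀ n, 2 * h (n + 1) ≤ h n + h (n + 2)
  lin : ∀ n, h (n + 1) < f (n + 1) → 2 * h (n + 1) = h n + h (n + 2)
  touch : ∀ n, ∃ m, n ≤ m ∧ h m = f m

/-- `n` is a strict vertex of the convex function `h`. -/
def Vtx (h : ℕ → ℤ) (n : ℕ) : Prop := n = 0 ∨ 2 * h n < h (n - 1) + h (n + 1)

/-! ### The ghost numbers on the tree -/

/-- `min(ν, v_p(m - c))`. -/
def tau (p ν : ℕ) (c m : ℤ) : ℕ :=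
  ((Finset.Icc 1 ν).filter fun i : ℕ ↦ (p : ℤ) ^ i ∣ m - c).card

/-- `v_ξ(d_k)`, `ξ = (c mod 2^ν)`, `k ≥ 1`. -/
def inc (e ν : ℕ) (c : ℤ) (k : ℕ) : ℤ :=
  3 * (k : ℤ) + ((k + e) / 2 : ℕ) +
    ∑ m ∈ Finset.Icc (2 * k + 1) (3 * k - 1 + e), (tau 2 ν c m : ℤ) -
    ∑ m ∈ Finset.Icc ((3 * k - e) / 2 + 1) (2 * k - 1), (tau 2 ν c m : ℤ)

/-- `f_n(ξ) = v_ξ(D_n)`, `ξ = (c mod 2^ν)`. -/
def f (e ν : ℕ) (c : ℤ) (n : ℕ) : ℤ := ∑ k ∈ Finset.Icc 1 n, inc e ν c k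

/-- `t_m = ⌊(m-e)/3⌋`, the dimension of level one forms (of weight `4m` or `4m+2`). -/
def tm (e m : ℕ) : ℕ := (m - e) / 3

/-- `σ_m`, the slope of the block of the classical point `m`. -/
def sig (e m : ℕ) : ℕ := 2 * m - 1 + e

/-- The multiplicity of the zero `m` of `D_n` (truncated subtraction). -/
def tent (e m n : ℕ) : ℕ := min (n - tm e m) (m - 1 - tm e m - n)

/-- The value at the root. -/
def B (e n : ℕ) : ℕ := ∑ k ∈ Finset.Icc 1 n, (3 * k + (k + e) / 2)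

/-! ### The combinatorial input of the potential argument -/

/-- The properties (K1), (K2), (K3) of a family `F ν c n` of sequences on the tree of classes
`c mod p^ν` with hulls `H ν c` (the node `(ν + 1, c)` has the parent `(ν, c)`). -/
structure KProps (F H : ℕ → ℤ → ℕ → ℤ) : Prop where
  hull : ∀ (ν : ℕ) (c : ℤ), IsHull (F ν c) (H ν c)
  k1 : ∀ (ν : ℕ) (c : ℤ) (n : ℕ), Vtx (H (ν + 1) c) n →
    F ν c (n + 1) - H ν c (n + 1) ≤ F (ν + 1) c (n + 1) - H (ν + 1) c (n + 1)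
  k2 : ∀ (ν : ℕ) (c : ℤ) (n : ℕ), Vtx (H ν c) n →
    F (ν + 1) c (n + 1) - H (ν + 1) c (n + 1) ≤ F ν c (n + 1) - H ν c (n + 1) + 1
  k3a : ∀ (ν : ℕ) (c : ℤ) (n : ℕ), Vtx (H ν c) n → H (ν + 1) c n = F (ν + 1) c n
  k3b : ∀ (ν : ℕ) (c : ℤ) (n : ℕ), Vtx (H (ν + 1) c) n → Vtx (H ν c) n

/-! ### The matrices -/

/-- The normalised matrix `M'_ij(y) = 2^(6(j-i)) [T^(2i-j)] (1 + 8·4^e T) (1 + 16T)^(i+j-1-y)`,
used for `i, j ≥ 1`. -/
def MM {K : Type*} [Field K] (e : ℕ) (y : K) (i j : ℕ) : K :=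
  if j ≤ 2 * i then
    (2 : K) ^ (6 * ((j : ℤ) - i)) * PowerSeries.coeff (2 * i - j)
      ((1 + PowerSeries.C (8 * 4 ^ e : K) * PowerSeries.X) *
        PowerSeries.rescale (16 : K) (binS ((i : K) + j - 1 - y)))
  else 0

/-- The leading block. -/
def blk {K : Type*} (C : ℕ → ℕ → K) (n : ℕ) : Matrix (Fin n) (Fin n) K :=
  Matrix.of fun i j ↦ C (i + 1) (j + 1)

/-- `D_n(y)`, the leading minor of size `n` of `M'(y)`. -/
def DD {K : Type*} [Field K] (e : ℕ) (y : K) (n : ℕ) : K := (blk (MM e y) n).det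

end GH.Cen
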