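import Pool.Agent.GH.Cen.Defs

/-!
# Dominance: the Newton polygon of `A⁻¹ D U` with `A ≡ 1`, `U` integral unitriangular
-/

open Filter Topology

noncomputable section

namespace GH.Cen

/-! ### ultrametric lemmas -/

theorem norm_sum_lt_of {K ι : Type*} [NormedField K] [IsUltrametricDist K] (s : Finset ι)
    (f : ι → K) (C : ℝ) (hC : 0 < C) (h : ∀ i ∈ s, ‖f i‖ < C) : ‖∑ i ∈ s, f i‖ < C := by
  rcases s.eq_empty_or_nonempty with rfl | hs
  · simpa using hC
  · obtain ⟨i, hi, h1⟩ := IsUltrametricDist.exists_norm_finsetSum_le_of_nonempty hs f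
    exact h1.trans_lt (h i hi)

theorem norm_sum_eq_of {K ι : Type*} [NormedField K] [IsUltrametricDist K] (s : Finset ι)
    (f : ι → K) (a : ι) (ha : a ∈ s) (h0 : 0 < ‖f a‖) (h : ∀ i ∈ s, i ≠ a → ‖f i‖ < ‖f a‖) :
    ‖∑ i ∈ s, f i‖ = ‖f a‖ := by
  classical
  rw [← Finset.add_sum_erase s f ha]
  have h1 : ‖∑ i ∈ s.erase a, f i‖ < ‖f a‖ :=
    norm_sum_lt_of _ _ _ h0 fun i hi ↦ h i (Finset.mem_of_mem_erase hi) (Finset.ne_of_mem_erase hi)
  rw [IsUltrametricDist.norm_add_eq_max_of_norm_ne_norm h1.ne']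
  exact max_eq_left h1.le

/-- A matrix which is integral, upper triangular modulo the maximal ideal, with units on the
diagonal, has a unit determinant. -/
theorem norm_det_eq_one {K : Type*} [NormedField K] [IsUltrametricDist K] {N : ℕ}
    (M : Matrix (Fin N) (Fin N) K) (h1 : ∀ i j, ‖M i j‖ ≤ 1) (h2 : ∀ i j, j < i → ‖M i j‖ < 1)
    (h3 : ∀ i, ‖M i i‖ = 1) : ‖M.det‖ = 1 := by
  rw [Matrix.det_apply]
  have hid : ‖Equiv.Perm.sign (1 : Equiv.Perm (Fin N)) • ∏ i, M ((1 : Equiv.Perm (Fin N)) i) i‖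
      = 1 := by
    rw [Equiv.Perm.sign_one, one_smul, norm_prod]
    exact Finset.prod_eq_one fun i _ ↦ h3 i
  rw [norm_sum_eq_of Finset.univ _ (1 : Equiv.Perm (Fin N)) (Finset.mem_univ _)
    (by rw [hid]; exact one_pos)]
  · exact hid
  · intro σ _ hσ
    rw [hid]
    have hs : ‖Equiv.Perm.sign σ • ∏ i, M (σ i) i‖ = ‖∏ i, M (σ i) i‖ := by
      rcases Int.units_eq_one_or (Equiv.Perm.sign σ) with h | h <;> rw [h]
      · rw [one_smul]
      · rw [Units.neg_smul, one_smul, norm_neg]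
    rw [hs, norm_prod]
    -- some `i` with `i < σ i`
    have hex : ∃ i, i < σ i := by
      by_contra hc
      push Not at hc
      apply hσ
      have hle : ∀ i, σ i ≤ i := hc
      ext i
      have hsum : ∑ i, ((σ i : Fin N) : ℕ) = ∑ i : Fin N, (i : ℕ) :=
        Equiv.sum_comp σ fun i : Fin N ↦ (i : ℕ)
      have hall := (Finset.sum_eq_sum_iff_of_le fun i _ ↦ (show ((σ i : Fin N) : ℕ) ≤ (i : ℕ) from
        hle i)).1 hsum
      rw [hall i (Finset.mem_univ i)]
      rfl
    obtain ⟨i, hi⟩ := hex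
    rw [← Finset.mul_prod_erase Finset.univ _ (Finset.mem_univ i)]
    have h4 : ∏ j ∈ Finset.univ.erase i, ‖M (σ j) j‖ ≤ 1 :=
      Finset.prod_le_one (fun j _ ↦ norm_nonneg _) fun j _ ↦ h1 _ _
    calc ‖M (σ i) i‖ * ∏ j ∈ Finset.univ.erase i, ‖M (σ j) j‖ ≤ ‖M (σ i) i‖ * 1 :=
          mul_le_mul_of_nonneg_left h4 (norm_nonneg _)
      _ = ‖M (σ i) i‖ := mul_one _
      _ < 1 := h2 _ _ hi

/-! ### products of a decreasing sequence -/

theorem prod_lt_of_ne (δ : ℕ → ℝ) (hpos : ∀ i, 0 < δ i) (hanti : StrictAnti δ) (m : ℕ)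
    (S : Finset ℕ) (hS : S.card = m) (hne : S ≠ Finset.range m) :
    ∏ i ∈ S, δ i < ∏ i ∈ Finset.range m, δ i := by
  have hcard : (S \ Finset.range m).card = (Finset.range m \ S).card := by
    have h1 := Finset.card_sdiff_add_card_inter S (Finset.range m)
    have h2 := Finset.card_sdiff_add_card_inter (Finset.range m) S
    rw [Finset.inter_comm, Finset.card_range] at h2
    omega
  have hne' : (S \ Finset.range m).Nonempty := by
    rw [Finset.nonempty_iff_ne_empty]
    intro h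
    rw [Finset.sdiff_eq_empty_iff_subset] at h
    exact hne (Finset.eq_of_subset_of_card_le h (by rw [Finset.card_range, hS]))
  have hm : 1 ≤ m := by
    by_contra hm
    have h0 : m = 0 := by omega
    rw [h0] at hS
    rw [Finset.card_eq_zero] at hS
    rw [hS] at hne'
    simp at hne'
  set r := (S \ Finset.range m).card with hr
  have hr0 : r ≠ 0 := (Finset.card_pos.2 hne').ne'
  have h1 : ∏ i ∈ S \ Finset.range m, δ i ≤ δ m ^ r := by
    refine (Finset.prod_le_prod (fun i _ ↦ (hpos i).le) fun i hi ↦ ?_).trans_eq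
      (Finset.prod_const (δ m))
    rw [Finset.mem_sdiff, Finset.mem_range] at hi
    exact hanti.antitone (by omega)
  have h2 : δ (m - 1) ^ r ≤ ∏ i ∈ Finset.range m \ S, δ i := by
    rw [hcard]
    refine (Finset.prod_const (δ (m - 1))).symm.trans_le
      (Finset.prod_le_prod (fun i _ ↦ (hpos _).le) fun i hi ↦ ?_)
    rw [Finset.mem_sdiff, Finset.mem_range] at hi
    exact hanti.antitone (by omega)
  have h3 : δ m ^ r < δ (m - 1) ^ r :=
    pow_lt_pow_left₀ (hanti (by omega)) (hpos _).le hr0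
  rw [← Finset.prod_inter_mul_prod_sdiff S (Finset.range m),
    ← Finset.prod_inter_mul_prod_sdiff (Finset.range m) S, Finset.inter_comm (Finset.range m) S]
  exact mul_lt_mul_of_pos_left (h1.trans_lt (h3.trans_le h2))
    (Finset.prod_pos fun i _ ↦ hpos i)

/-! ### the expansion of the determinant -/

/-- The lower triangular block of `A`. -/
def loM {K : Type*} [Field K] (A : ℕ → ℕ → K) (N : ℕ) : Matrix (Fin N) (Fin N) K :=
  Matrix.of fun i j ↦ if j ≤ i then A (i + 1) (j + 1) else 0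

/-- Rows of `U` in `s`, rows of `A` outside of `s`. -/
def mixM {K : Type*} [Field K] (A U : ℕ → ℕ → K) (N : ℕ) (s : Finset (Fin N)) :
    Matrix (Fin N) (Fin N) K :=
  Matrix.of fun i j ↦ if i ∈ s then U (i + 1) (j + 1) else loM A N i j

theorem det_loM {K : Type*} [Field K] (A : ℕ → ℕ → K) (hA1 : ∀ i, 1 ≤ i → A i i = 1) (N : ℕ) :
    (loM A N).det = 1 := by
  rw [Matrix.det_of_isLowerTriangular (loM A N) (by
    intro i j hij
    have h1 : i < j := hij
    show (if j ≤ i then A (i + 1) (j + 1) else 0) = 0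
    rw [if_neg h1.not_ge])]
  refine Finset.prod_eq_one fun i _ ↦ ?_
  show (if i ≤ i then A (i + 1) (i + 1) else 0) = 1
  rw [if_pos le_rfl, hA1 _ (by omega)]

theorem sum_Icc_one {M : Type*} [AddCommMonoid M] (f : ℕ → M) (n : ℕ) :
    ∑ k ∈ Finset.Icc 1 n, f k = ∑ k ∈ Finset.range n, f (k + 1) := by
  induction n with
  | zero => simp
  | succ n ih => rw [Finset.sum_Icc_succ_top (by omega), Finset.sum_range_succ, ih]

theorem prod_Icc_one {M : Type*} [CommMonoid M] (f : ℕ → M) (n : ℕ) :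
    ∏ k ∈ Finset.Icc 1 n, f k = ∏ k ∈ Finset.range n, f (k + 1) := by
  induction n with
  | zero => simp
  | succ n ih => rw [Finset.prod_Icc_succ_top (by omega), Finset.prod_range_succ, ih]

theorem loM_mul {K : Type*} [Field K] (C A U : ℕ → ℕ → K) (d : ℕ → K)
    (hC : ∀ i j, 1 ≤ i → 1 ≤ j → ∑ k ∈ Finset.Icc 1 i, A i k * C k j = d i * U i j) (N : ℕ) :
    loM A N * blk C N = Matrix.of fun i j : Fin N ↦ d (i + 1) * U (i + 1) (j + 1) := by
  ext i j
  rw [Matrix.mul_apply]
  show _ = d (i + 1) * U (i + 1) (j + 1)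
  rw [← hC (i + 1) (j + 1) (by omega) (by omega), sum_Icc_one]
  have h1 : ∑ k : Fin N, loM A N i k * blk C N k j = ∑ k : Fin N,
      (fun k : ℕ ↦ if k ≤ i then A (i + 1) (k + 1) * C (k + 1) (j + 1) else 0) k := by
    refine Finset.sum_congr rfl fun k _ ↦ ?_
    show (if k ≤ i then A (i + 1) (k + 1) else 0) * C (k + 1) (j + 1) =
      if (k : ℕ) ≤ i then A (i + 1) (k + 1) * C (k + 1) (j + 1) else 0
    by_cases h : (k : ℕ) ≤ i
    · rw [if_pos h, if_pos (show k ≤ i from h)]
    · rw [if_neg h, if_neg (show ¬ k ≤ i from h), zero_mul]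
  rw [h1, Fin.sum_univ_eq_sum_range
    (fun k : ℕ ↦ if k ≤ i then A (i + 1) (k + 1) * C (k + 1) (j + 1) else 0) N]
  have h2 : Finset.range ((i : ℕ) + 1) ⊆ Finset.range N :=
    Finset.range_subset_range.2 (by omega)
  rw [← Finset.sum_subset h2]
  · refine Finset.sum_congr rfl fun k hk ↦ ?_
    rw [Finset.mem_range] at hk
    rw [if_pos (by omega)]
  · intro k _ hk
    rw [Finset.mem_range] at hk
    rw [if_neg (by omega)]

theorem det_expand {K : Type*} [Field K] (A U : ℕ → ℕ → K) (d : ℕ → K) (N : ℕ) :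
    ((loM A N).map Polynomial.C - (Polynomial.X : Polynomial K) •
      (Matrix.of fun i j : Fin N ↦ d (i + 1) * U (i + 1) (j + 1)).map Polynomial.C).det =
    ∑ s : Finset (Fin N), Polynomial.C ((-1) ^ s.card * (∏ i ∈ s, d (i + 1)) *
      (mixM A U N s).det) * Polynomial.X ^ s.card := by
  classical
  set u : Fin N → Fin N → Polynomial K := fun i j ↦ Polynomial.C (U (i + 1) (j + 1)) with hu
  set a : Fin N → Fin N → Polynomial K := fun i j ↦ Polynomial.C (loM A N i j) with ha
  set c : Fin N → Polynomial K := fun i ↦ -(Polynomial.X * Polynomial.C (d (i + 1))) with hc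
  have h1 : ((loM A N).map Polynomial.C - (Polynomial.X : Polynomial K) •
      (Matrix.of fun i j : Fin N ↦ d (i + 1) * U (i + 1) (j + 1)).map Polynomial.C) =
      Matrix.of ((fun i ↦ c i • u i) + a) := by
    ext1 i j
    simp only [Matrix.sub_apply, Matrix.map_apply, Matrix.smul_apply, Matrix.of_apply,
      Pi.add_apply, Pi.smul_apply, smul_eq_mul, hc, hu, ha, Polynomial.C_mul]
    ring
  rw [h1]
  have h2 := (Matrix.detRowAlternating (n := Fin N) (R := Polynomial K)).toMultilinearMap.map_add_univ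
    (fun i ↦ c i • u i) a
  have h3 : (Matrix.of ((fun i ↦ c i • u i) + a) : Matrix (Fin N) (Fin N) (Polynomial K)).det =
      (Matrix.detRowAlternating (n := Fin N) (R := Polynomial K)).toMultilinearMap
        ((fun i ↦ c i • u i) + a) := rfl
  rw [h3, h2]
  refine Finset.sum_congr rfl fun s _ ↦ ?_
  have h4 : s.piecewise (fun i ↦ c i • u i) a =
      s.piecewise (fun i ↦ c i • (s.piecewise u a) i) (s.piecewise u a) := by
    funext i
    by_cases hi : i ∈ s
    · rw [Finset.piecewise_eq_of_mem _ _ _ hi, Finset.piecewise_eq_of_mem _ _ _ hi,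
        Finset.piecewise_eq_of_mem _ _ _ hi]
    · rw [Finset.piecewise_eq_of_notMem _ _ _ hi, Finset.piecewise_eq_of_notMem _ _ _ hi,
        Finset.piecewise_eq_of_notMem _ _ _ hi]
  rw [h4, MultilinearMap.map_piecewise_smul]
  have h5 : (Matrix.detRowAlternating (n := Fin N) (R := Polynomial K)).toMultilinearMap
      (s.piecewise u a) = Polynomial.C (mixM A U N s).det := by
    rw [RingHom.map_det]
    show (Matrix.of (s.piecewise u a)).det = _
    congr 1
    ext1 i j
    show s.piecewise u a i j = Polynomial.C (if i ∈ s then U (i + 1) (j + 1) else loM A N i j)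
    by_cases hi : i ∈ s
    · rw [Finset.piecewise_eq_of_mem _ _ _ hi, if_pos hi]
    · rw [Finset.piecewise_eq_of_notMem _ _ _ hi, if_neg hi]
  have h6 : ∏ i ∈ s, c i = Polynomial.C ((-1) ^ s.card * ∏ i ∈ s, d (i + 1)) *
      Polynomial.X ^ s.card := by
    have h7 : ∀ i, c i = Polynomial.C (-1 * d (i + 1)) * Polynomial.X := fun i ↦ by
      simp only [hc, Polynomial.C_mul, Polynomial.C_neg, Polynomial.C_1]
      ring
    rw [Finset.prod_congr rfl fun i _ ↦ h7 i, Finset.prod_mul_distrib, Finset.prod_const,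
      ← map_prod, Finset.prod_mul_distrib, Finset.prod_const]
  rw [h5, h6, smul_eq_mul]
  simp only [Polynomial.C_mul]
  ring

theorem fredBlock_eq_sum {K : Type*} [Field K] (C A U : ℕ → ℕ → K) (d : ℕ → K)
    (hA1 : ∀ i, 1 ≤ i → A i i = 1)
    (hC : ∀ i j, 1 ≤ i → 1 ≤ j → ∑ k ∈ Finset.Icc 1 i, A i k * C k j = d i * U i j) (N m : ℕ) :
    fredBlock C N m = ∑ s ∈ Finset.univ.filter (fun s : Finset (Fin N) ↦ s.card = m),
      (-1) ^ s.card * (∏ i ∈ s, d (i + 1)) * (mixM A U N s).det := by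
  classical
  have h1 : (Matrix.charpolyRev (blk C N)) =
      ((loM A N).map Polynomial.C - (Polynomial.X : Polynomial K) •
      (Matrix.of fun i j : Fin N ↦ d (i + 1) * U (i + 1) (j + 1)).map Polynomial.C).det := by
    have h2 : ((loM A N).map (Polynomial.C : K →+* Polynomial K)).det = 1 := by
      have h3 : ((loM A N).map (Polynomial.C : K →+* Polynomial K)).det =
          Polynomial.C (loM A N).det := by
        rw [RingHom.map_det]
        rfl
      rw [h3, det_loM A hA1, Polynomial.C_1]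
    rw [← loM_mul C A U d hC N]
    unfold Matrix.charpolyRev
    rw [Matrix.map_mul]
    calc (1 - (Polynomial.X : Polynomial K) • (blk C N).map Polynomial.C).det =
        ((loM A N).map (Polynomial.C : K →+* Polynomial K)).det *
          (1 - (Polynomial.X : Polynomial K) • (blk C N).map Polynomial.C).det := by
          rw [h2, one_mul]
      _ = _ := by
          rw [← Matrix.det_mul, mul_sub, mul_one, Matrix.mul_smul]
  have h4 : fredBlock C N m = (Matrix.charpolyRev (blk C N)).coeff m := rfl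
  rw [h4, h1, det_expand, Polynomial.finsetSum_coeff, Finset.sum_filter]
  refine Finset.sum_congr rfl fun s _ ↦ ?_
  rw [Polynomial.coeff_C_mul_X_pow]
  by_cases h : s.card = m
  · rw [if_pos h, if_pos h.symm]
  · rw [if_neg h, if_neg (fun h' ↦ h h'.symm)]

/-! ### the theorems -/

/-- Row OUT1. `A C = D U` with `A` lower unitriangular, `A ≡ 1`, `U` upper unitriangular and
integral, `|d_1| > |d_2| > ⋯`: the coefficient of `t^m` of `det (1 - t C_N)` has norm
`|d_1 ⋯ d_m|`. -/
theorem norm_fredBlock_of_lu {K : Type*} [NormedField K] [IsUltrametricDist K]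
    (C A U : ℕ → ℕ → K) (d : ℕ → K)
    (hA1 : ∀ i, 1 ≤ i → A i i = 1)
    (hA : ∀ i k, 1 ≤ k → k < i → ‖A i k‖ < 1)
    (hU1 : ∀ i, 1 ≤ i → U i i = 1)
    (hU0 : ∀ i j, 1 ≤ j → j < i → U i j = 0)
    (hU : ∀ i j, 1 ≤ i → i < j → ‖U i j‖ ≤ 1)
    (hC : ∀ i j, 1 ≤ i → 1 ≤ j → ∑ k ∈ Finset.Icc 1 i, A i k * C k j = d i * U i j)
    (hd : ∀ i, 1 ≤ i → ‖d (i + 1)‖ < ‖d i‖) (N m : ℕ) (hm : m ≤ N) :
    ‖fredBlock C N m‖ = ∏ k ∈ Finset.Icc 1 m, ‖d k‖ := by
  classical
  set δ : ℕ → ℝ := fun i ↦ ‖d (i + 1)‖ with hδ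
  have hanti : StrictAnti δ := strictAnti_nat_of_succ_lt fun i ↦ hd (i + 1) (by omega)
  have hpos : ∀ i, 0 < δ i := fun i ↦ (norm_nonneg _).trans_lt (hanti (Nat.lt_succ_self i))
  have hdet : ∀ s : Finset (Fin N), ‖(mixM A U N s).det‖ = 1 := by
    intro s
    have hlo1 : ∀ i : Fin N, loM A N i i = 1 := fun i ↦ by
      show (if i ≤ i then A (i + 1) (i + 1) else 0) = 1
      rw [if_pos le_rfl, hA1 _ (by omega)]
    have hlo2 : ∀ i j : Fin N, j < i → ‖loM A N i j‖ < 1 := fun i j hij ↦ by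
      show ‖(if j ≤ i then A (i + 1) (j + 1) else 0)‖ < 1
      rw [if_pos hij.le]
      exact hA _ _ (by omega) (by
        have : (j : ℕ) < i := hij
        omega)
    have hlo3 : ∀ i j : Fin N, i < j → loM A N i j = 0 := fun i j hij ↦ by
      show (if j ≤ i then A (i + 1) (j + 1) else 0) = 0
      rw [if_neg hij.not_ge]
    refine norm_det_eq_one _ (fun i j ↦ ?_) (fun i j hij ↦ ?_) fun i ↦ ?_
    · show ‖(if i ∈ s then U (i + 1) (j + 1) else loM A N i j)‖ ≤ 1
      rcases lt_trichotomy i j with h | h | h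
      · split_ifs
        · exact hU _ _ (by omega) (by
            have : (i : ℕ) < j := h
            omega)
        · rw [hlo3 i j h, norm_zero]
          exact zero_le_one
      · rw [h]
        split_ifs
        · rw [hU1 _ (by omega), norm_one]
        · rw [hlo1, norm_one]
      · split_ifs
        · rw [hU0 _ _ (by omega) (by
            have : (j : ℕ) < i := h
            omega), norm_zero]
          exact zero_le_one
        · exact (hlo2 i j h).le
    · show ‖(if i ∈ s then U (i + 1) (j + 1) else loM A N i j)‖ < 1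
      split_ifs
      · rw [hU0 _ _ (by omega) (by
          have : (j : ℕ) < i := hij
          omega), norm_zero]
        exact one_pos
      · exact hlo2 i j hij
    · show ‖(if i ∈ s then U (i + 1) (i + 1) else loM A N i i)‖ = 1
      split_ifs
      · rw [hU1 _ (by omega), norm_one]
      · rw [hlo1, norm_one]
  have hterm : ∀ s : Finset (Fin N), ‖(-1 : K) ^ s.card * (∏ i ∈ s, d (i + 1)) *
      (mixM A U N s).det‖ = ∏ i ∈ s.map Fin.valEmbedding, δ i := by
    intro s
    rw [norm_mul, norm_mul, norm_pow, norm_neg, norm_one, one_pow, one_mul, hdet, mul_one,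
      norm_prod, Finset.prod_map]
    rfl
  set s0 : Finset (Fin N) := Finset.univ.filter fun i ↦ (i : ℕ) < m with hs0
  have hs0' : s0.map Fin.valEmbedding = Finset.range m := by
    ext x
    rw [Finset.mem_map, Finset.mem_range]
    constructor
    · rintro ⟨i, hi, rfl⟩
      exact (Finset.mem_filter.1 hi).2
    · intro hx
      exact ⟨⟨x, by omega⟩, Finset.mem_filter.2 ⟨Finset.mem_univ _, hx⟩, rfl⟩
  have hs0c : s0.card = m := by
    rw [← Finset.card_map Fin.valEmbedding, hs0', Finset.card_range]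
  rw [fredBlock_eq_sum C A U d hA1 hC N m, norm_sum_eq_of _ _ s0
    (Finset.mem_filter.2 ⟨Finset.mem_univ _, hs0c⟩), hterm, hs0', prod_Icc_one]
  · rw [hterm]
    exact Finset.prod_pos fun i _ ↦ hpos i
  · intro s hs hne
    rw [hterm, hterm, hs0']
    refine prod_lt_of_ne δ hpos hanti m _ ?_ ?_
    · rw [Finset.card_map]
      exact (Finset.mem_filter.1 hs).2
    · rw [← hs0']
      intro h
      exact hne (Finset.map_injective _ h)

/-- Row OUT1. The leading minors. -/
theorem det_blk_of_lu {K : Type*} [NormedField K]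
    (C A U : ℕ → ℕ → K) (d : ℕ → K)
    (hA1 : ∀ i, 1 ≤ i → A i i = 1)
    (hU1 : ∀ i, 1 ≤ i → U i i = 1)
    (hU0 : ∀ i j, 1 ≤ j → j < i → U i j = 0)
    (hC : ∀ i j, 1 ≤ i → 1 ≤ j → ∑ k ∈ Finset.Icc 1 i, A i k * C k j = d i * U i j) (m : ℕ) :
    (blk C m).det = ∏ k ∈ Finset.Icc 1 m, d k := by
  have h1 : (loM A m * blk C m).det = (blk C m).det := by
    rw [Matrix.det_mul, det_loM A hA1, one_mul]
  rw [← h1, loM_mul C A U d hC, Matrix.det_of_isUpperTriangular (by
    intro i j hij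
    have h2 : j < i := hij
    show d (i + 1) * U (i + 1) (j + 1) = 0
    rw [hU0 _ _ (by omega) (by
      have : (j : ℕ) < i := h2
      omega), mul_zero]), prod_Icc_one]
  have h3 : ∀ i : Fin m, (Matrix.of fun i j : Fin m ↦ d (i + 1) * U (i + 1) (j + 1)) i i =
      (fun k : ℕ ↦ d (k + 1)) i := fun i ↦ by
    show d (i + 1) * U (i + 1) (i + 1) = d (i + 1)
    rw [hU1 _ (by omega), mul_one]
  rw [Finset.prod_congr rfl fun i _ ↦ h3 i]
  exact Fin.prod_univ_eq_prod_range (fun k : ℕ ↦ d (k + 1)) m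

/-- Row OUT1. -/
theorem newtonPolygon_of_lu {K : Type*} [NormedField K] [IsUltrametricDist K]
    (C A U : ℕ → ℕ → K) (d : ℕ → K)
    (hlim : ∀ m, ∃ c, Tendsto (fun N : ℕ ↦ fredBlock C N m) atTop (𝓝 c))
    (hA1 : ∀ i, 1 ≤ i → A i i = 1)
    (hA : ∀ i k, 1 ≤ k → k < i → ‖A i k‖ < 1)
    (hU1 : ∀ i, 1 ≤ i → U i i = 1)
    (hU0 : ∀ i j, 1 ≤ j → j < i → U i j = 0)
    (hU : ∀ i j, 1 ≤ i → i < j → ‖U i j‖ ≤ 1)
    (hC : ∀ i j, 1 ≤ i → 1 ≤ j → ∑ k ∈ Finset.Icc 1 i, A i k * C k j = d i * U i j)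
    (hd : ∀ i, 1 ≤ i → ‖d (i + 1)‖ < ‖d i‖) :
    newtonPolygon 2 (fred C) = newtonPolygon 2 fun n ↦ (blk C n).det := by
  have h : ∀ n, ‖fred C n‖ = ‖(blk C n).det‖ := by
    intro n
    obtain ⟨c, hc⟩ := hlim n
    have h1 : fred C n = c := hc.limUnder_eq
    have h2 : Tendsto (fun N : ℕ ↦ ‖fredBlock C N n‖) atTop (𝓝 ‖c‖) := hc.norm
    have h3 : Tendsto (fun N : ℕ ↦ ‖fredBlock C N n‖) atTop (𝓝 (∏ k ∈ Finset.Icc 1 n, ‖d k‖)) := by
      refine tendsto_const_nhds.congr' ?_
      filter_upwards [eventually_ge_atTop n] with N hN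
      exact (norm_fredBlock_of_lu C A U d hA1 hA hU1 hU0 hU hC hd N n hN).symm
    rw [h1, tendsto_nhds_unique h2 h3, det_blk_of_lu C A U d hA1 hU1 hU0 hC n, norm_prod]
  have h0 : ∀ n, fred C n = 0 ↔ (blk C n).det = 0 := fun n ↦ by
    rw [← norm_eq_zero, h n, norm_eq_zero]
  unfold newtonPolygon IsMinorant
  simp only [h, ne_eq, h0]

end GH.Cen
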