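import Pool.Agent.GH.Cen.Scale
import Pool.Agent.GH.Main

/-!
# Ghost conjecture `(2,1)`: the theorem on the central disc, assembly
-/

open Filter Topology

noncomputable section

namespace GH.Cen

/-- The Newton polygon depends only on the norms of the coefficients. -/
theorem newtonPolygon_congr {K L : Type*} [NormedField K] [NormedField L] (a : ℕ → K) (b : ℕ → L)
    (h : ∀ n, ‖a n‖ = ‖b n‖) : newtonPolygon 2 a = newtonPolygon 2 b := by
  have h0 : ∀ n, a n = 0 ↔ b n = 0 := fun n ↦ by rw [← norm_eq_zero, h n, norm_eq_zero]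
  unfold newtonPolygon IsMinorant
  simp only [h, ne_eq, h0]

/-- GH-POT, for both discs. -/
def PotStatement : Prop :=
  ∀ e : ℕ, e ≤ 1 → ∀ y : C2, ‖y‖ ≤ 1 →
    newtonPolygon 2 (fred (MM e y)) = newtonPolygon 2 (DD e y)

/-- GH-MAT (ME): the leading minors have the norms of the ghost coefficients, for all `x`. -/
def MinorStatement : Prop :=
  ∀ x : C2, ‖x‖ ≤ 1 →
    (‖x - 1‖ = 1 → ∀ n : ℕ, ‖(blk (Mmat x) n).det‖ = ‖ghost 2 (wx x) n‖) ∧
    (‖x - 1‖ < 1 → ∀ n : ℕ, ‖(blk (Modd x) n).det‖ = ‖ghost 2 (wx x) n‖)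

/-- Rows OUT: the outer regions. -/
def OuterStatement : Prop :=
  (∀ x : C2, ‖x‖ ≤ 1 → 1 / 2 < ‖x‖ → ‖x - 1‖ = 1 →
    newtonPolygon 2 (fred (Mmat x)) = newtonPolygon 2 fun n ↦ (blk (Mmat x) n).det) ∧
  (∀ x : C2, ‖x - 1‖ < 1 → 1 / 2 < ‖x - 1‖ →
    newtonPolygon 2 (fred (Modd x)) = newtonPolygon 2 fun n ↦ (blk (Modd x) n).det)

theorem norm_two : ‖(2 : C2)‖ = 1 / 2 := by
  have h := PadicComplex.norm_extends' 2 (2 : ℚ_[2])
  have h2 : ‖(2 : ℚ_[2])‖ = 1 / 2 := by
    have := Padic.norm_p (p := 2)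
    push_cast at this
    rw [this]; norm_num
  rw [h2] at h
  rw [← h]
  congr 1
  symm
  change algebraMap (PadicAlgCl 2) C2 (algebraMap ℚ_[2] (PadicAlgCl 2) 2) = 2
  rw [map_ofNat, map_ofNat]

theorem central (hP : PotStatement) (hM : MinorStatement) (hO : OuterStatement) :
    CentralTheorem := by
  intro x hx
  constructor
  · intro hx1
    have hm : newtonPolygon 2 (fun n ↦ (blk (Mmat x) n).det) =
        newtonPolygon 2 (ghost 2 (wx x)) :=
      newtonPolygon_congr _ _ ((hM x hx).1 hx1)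
    rw [← hm]
    by_cases h : ‖x‖ ≤ 1 / 2
    · have hy : ‖x / 2‖ ≤ 1 := by
        rw [norm_div, norm_two]; linarith
      rw [newtonPolygon_congr (fred (Mmat x)) (fred (MM 0 (x / 2)))
        (fun n ↦ by rw [(scale x).1 n]), hP 0 (by norm_num) _ hy]
      exact newtonPolygon_congr _ _ fun n ↦ by rw [DD, (scale_det x).1 n]
    · exact hO.1 x hx (not_le.mp h) hx1
  · intro hx1
    have hm : newtonPolygon 2 (fun n ↦ (blk (Modd x) n).det) =
        newtonPolygon 2 (ghost 2 (wx x)) :=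
      newtonPolygon_congr _ _ ((hM x hx).2 hx1)
    rw [← hm]
    by_cases h : ‖x - 1‖ ≤ 1 / 2
    · have hy : ‖(x - 1) / 2‖ ≤ 1 := by
        rw [norm_div, norm_two]; linarith
      rw [newtonPolygon_congr (fred (Modd x)) (fred (MM 1 ((x - 1) / 2)))
        (fun n ↦ by rw [(scale x).2 n]), hP 1 le_rfl _ hy]
      exact newtonPolygon_congr _ _ fun n ↦ by rw [DD, (scale_det x).2 n]
    · exact hO.2 x hx1 (not_le.mp h)

end GH.Cen
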