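import Pool.Agent.GH.Cen.Dom
import Pool.Agent.GH.Cen.Main
import Pool.Agent.GH.Mat.Spec
import Pool.Agent.GH.FredFam
import Pool.Agent.GH.UBound

/-!
# The outer regions of the two discs

`C_ij = 16^i [T^(2i-j)] (1 + (8·4^e/16) T) (1+T)^(i+j-1-y)`, i.e. `Mmat`, `Modd` conjugated by
`16^i`: `A`, `U`, `d` from GH-MAT (the LDU identity `A N = B`).
-/

open Filter Topology

noncomputable section

namespace GH.Cen

open GH.Mat (pr dfac NN NNo AA dd uu BB Gen)

/-- the outer region, in terms of `2y` -/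
structure Outr (y : C2) : Prop where
  lo : 1 / 2 < ‖2 * y‖
  hi : ‖2 * y‖ ≤ 1
  one : ‖2 * y - 1‖ = 1

theorem ou_add {z w : C2} (h : ‖w‖ < ‖z‖) : ‖z + w‖ = ‖z‖ := by
  rw [IsUltrametricDist.norm_add_eq_max_of_norm_ne_norm h.ne']
  exact max_eq_left h.le

theorem ou_two_int (l : ℤ) : ‖(2 : C2) * l‖ ≤ 1 / 2 := by
  rw [norm_mul, norm_two]
  have := ub_norm_int l
  linarith

section

variable {y : C2} (h : Outr y)

include h

theorem ou_even (l : ℤ) : ‖2 * y - ((2 * l : ℤ) : C2)‖ = ‖2 * y‖ := by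
  rw [sub_eq_add_neg]
  apply ou_add
  rw [norm_neg]
  push_cast
  exact (ou_two_int l).trans_lt h.lo

theorem ou_odd (l : ℤ) : ‖2 * y - ((2 * l + 1 : ℤ) : C2)‖ = 1 := by
  have e : 2 * y - ((2 * l + 1 : ℤ) : C2) = (2 * y - 1) + -(2 * (l : C2)) := by
    push_cast
    ring
  rw [e, ou_add, h.one]
  rw [norm_neg, h.one]
  exact (ou_two_int l).trans_lt (by norm_num)

theorem ou_cases (m : ℤ) : ‖2 * y - (m : C2)‖ = ‖2 * y‖ ∨ ‖2 * y - (m : C2)‖ = 1 := by
  rcases Int.even_or_odd' m with ⟨l, rfl | rfl⟩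
  · exact Or.inl (ou_even h l)
  · exact Or.inr (ou_odd h l)

theorem ou_le (m : ℤ) : ‖2 * y - (m : C2)‖ ≤ 1 := by
  rcases ou_cases h m with e | e <;> rw [e]
  exact h.hi

theorem ou_ge (m : ℤ) : 1 / 2 < ‖2 * y - (m : C2)‖ := by
  rcases ou_cases h m with e | e <;> rw [e]
  · exact h.lo
  · norm_num

theorem ou_gen : Gen y := by
  intro m hm
  have h1 := ou_ge h m
  rw [hm, sub_self, norm_zero] at h1
  norm_num at h1

theorem ou_norm (m : ℤ) : ‖y - (m : C2)‖ = 2 * ‖2 * y‖ := by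
  have e : y - (m : C2) = (2 * y - ((2 * m : ℤ) : C2)) / 2 := by
    push_cast
    ring
  rw [e, norm_div, ou_even h, norm_two]
  ring

theorem ou_pr (a : ℤ) (n : ℕ) : ‖pr y a n‖ = (2 * ‖2 * y‖) ^ n := by
  unfold pr
  have h1 : ∀ t ∈ Finset.range n, ‖y - ((a + (t : ℤ) : ℤ) : C2)‖ = 2 * ‖2 * y‖ :=
    fun t _ ↦ ou_norm h _
  rw [norm_prod, Finset.prod_congr rfl h1, Finset.prod_const, Finset.card_range]

theorem ou_three (k : ℕ) : ‖y - 3 * (k : C2)‖ = 2 * ‖2 * y‖ := by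
  have := ou_norm h (3 * k)
  push_cast at this
  exact this

theorem ou_two_three (k : ℕ) : 1 / 2 < ‖2 * y - 3 * (k : C2)‖ ∧ ‖2 * y - 3 * (k : C2)‖ ≤ 1 := by
  have h1 := ou_ge h (3 * k)
  have h2 := ou_le h (3 * k)
  push_cast at h1 h2
  exact ⟨h1, h2⟩

end

theorem ou_dfac (k : ℕ) : ‖dfac C2 k‖ = 1 := by
  unfold dfac
  rw [norm_prod]
  refine Finset.prod_eq_one fun t _ ↦ ?_
  rw [add_comm]
  have h1 : ‖(2 : C2) * (t : C2)‖ ≤ 1 / 2 := by
    have := ou_two_int (t : ℤ)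
    push_cast at this
    exact this
  rw [ou_add (by rw [norm_one]; linarith), norm_one]

theorem ou_rho {y : C2} (h : Outr y) : 1 < 2 * ‖2 * y‖ ∧ 2 * ‖2 * y‖ ≤ 2 := by
  have h1 := h.lo
  have h2 := h.hi
  constructor <;> linarith

/-- the norms of the entries of `A` -/
theorem ou_AA {y : C2} (h : Outr y) (i k : ℕ) (hki : k < i) :
    ‖(16 : C2) ^ (i - k) * AA y i k‖ < 1 := by
  obtain ⟨r, rfl⟩ : ∃ r, i = k + (r + 1) := ⟨i - k - 1, by omega⟩
  have hr : k + (r + 1) - k = r + 1 := by omega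
  unfold AA
  rw [if_neg (by omega), hr]
  obtain ⟨ρ, hρ⟩ : ∃ ρ : ℝ, ρ = 2 * ‖2 * y‖ := ⟨_, rfl⟩
  obtain ⟨hρ1, hρ2⟩ := ou_rho h
  rw [← hρ] at hρ1 hρ2
  have hρ0 : ρ ≠ 0 := by linarith
  have hpr : ∀ (a : ℤ) (n : ℕ), ‖pr y a n‖ = ρ ^ n := fun a n ↦ by rw [ou_pr h, hρ]
  have h3 : ∀ k : ℕ, ‖y - 3 * (k : C2)‖ = ρ := fun k ↦ by rw [ou_three h, hρ]
  have hf := ub_norm_fac r
  have hfpos : 0 < ‖(((r + 1).factorial : ℕ) : C2)‖ := by
    rw [norm_pos_iff]
    exact_mod_cast Nat.factorial_ne_zero (r + 1)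
  rw [norm_mul, norm_div]
  simp only [norm_mul, norm_pow, norm_neg, norm_one, one_pow, one_mul, hpr, ou_dfac,
    h3, mul_one, ub_norm_16, norm_two]
  have e : (16⁻¹ : ℝ) ^ (r + 1) * (ρ ^ (2 * (r + 1)) * ρ * ρ ^ (r + 1) /
      (ρ * ‖(((r + 1).factorial : ℕ) : C2)‖ * (1 / 2) ^ (r + 1) * ρ ^ (r + 1))) =
      (ρ ^ 2 / 8) ^ (r + 1) * ‖(((r + 1).factorial : ℕ) : C2)‖⁻¹ := by
    have hq : (ρ ^ 2 / 8) ^ (r + 1) = ρ ^ (2 * (r + 1)) * (8⁻¹) ^ (r + 1) := by
      rw [div_eq_mul_inv, mul_pow, ← pow_mul]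
    have h8 : (8⁻¹ : ℝ) ^ (r + 1) * (1 / 2) ^ (r + 1) = 16⁻¹ ^ (r + 1) := by
      rw [← mul_pow]
      norm_num
    have h12 : ((1 / 2 : ℝ)) ^ (r + 1) ≠ 0 := by positivity
    have hρr : ρ ^ (r + 1) ≠ 0 := pow_ne_zero _ hρ0
    rw [hq, ← h8]
    generalize ((1 / 2 : ℝ)) ^ (r + 1) = u at *
    generalize (8⁻¹ : ℝ) ^ (r + 1) = v at *
    generalize ρ ^ (2 * (r + 1)) = w at *
    generalize ρ ^ (r + 1) = z at *
    field_simp
  rw [e]
  have hr2 : ρ ^ 2 / 8 ≤ 1 / 2 := by nlinarith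
  calc (ρ ^ 2 / 8) ^ (r + 1) * ‖(((r + 1).factorial : ℕ) : C2)‖⁻¹
      ≤ (1 / 2) ^ (r + 1) * 2 ^ r := by
        apply mul_le_mul (pow_le_pow_left₀ (by positivity) hr2 _) hf
          (inv_nonneg.2 (norm_nonneg _)) (by positivity)
    _ = 1 / 2 := by
        rw [pow_succ, mul_assoc, mul_comm (1 / 2 : ℝ) (2 ^ r), ← mul_assoc, ← mul_pow]
        norm_num
    _ < 1 := by norm_num

/-- the combinatorial factor is an integer -/
theorem ou_comb (i j : ℕ) (hij : i ≤ j) (hj : j ≤ 2 * i) :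
    ‖((j.factorial : ℕ) : C2) / ((((2 * i - j).factorial : ℕ) : C2) *
      (((j - i).factorial : ℕ) : C2) * 2 ^ (j - i))‖ ≤ 1 := by
  obtain ⟨r, rfl⟩ : ∃ r, j = i + r := ⟨j - i, by omega⟩
  have e1 : i + r - i = r := by omega
  have e2 : 2 * i - (i + r) = i + r - 2 * r := by omega
  rw [e1, e2]
  have h1 : (i + r).choose (2 * r) * (2 * r).factorial * (i + r - 2 * r).factorial =
      (i + r).factorial := Nat.choose_mul_factorial_mul_factorial (by omega)
  have h2 : ∃ c : ℕ, (2 * r).factorial = r.factorial * 2 ^ r * c := by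
    rcases Nat.eq_zero_or_pos r with rfl | hr
    · exact ⟨1, rfl⟩
    · obtain ⟨s, rfl⟩ : ∃ s, r = s + 1 := ⟨r - 1, by omega⟩
      refine ⟨(2 * s + 1).doubleFactorial, ?_⟩
      have h3 := Nat.factorial_eq_mul_doubleFactorial (2 * s + 1)
      have h4 := Nat.doubleFactorial_two_mul (s + 1)
      have e3 : 2 * (s + 1) = 2 * s + 1 + 1 := by omega
      rw [e3] at h4 ⊢
      rw [h3, h4]
      ring
  obtain ⟨c, hc⟩ := h2
  have h3 : ((i + r).factorial : C2) = ((((i + r - 2 * r).factorial : ℕ) : C2) *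
      ((r.factorial : ℕ) : C2) * 2 ^ r) * (((i + r).choose (2 * r) * c : ℕ) : C2) := by
    rw [← h1, hc]
    push_cast
    ring
  have h4 : ((((i + r - 2 * r).factorial : ℕ) : C2) * ((r.factorial : ℕ) : C2) * 2 ^ r) ≠ 0 := by
    apply mul_ne_zero (mul_ne_zero _ _) (pow_ne_zero _ two_ne_zero)
    · exact_mod_cast Nat.factorial_ne_zero _
    · exact_mod_cast Nat.factorial_ne_zero _
  rw [h3, mul_div_cancel_left₀ _ h4]
  have := ub_norm_int (((i + r).choose (2 * r) * c : ℕ) : ℤ)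
  rwa [Int.cast_natCast] at this

theorem ou_alg (A z P w Q R : C2) : A * z * P / (w * Q * R) = A * P / (Q * R) * z / w := by
  rw [div_mul_eq_mul_div, div_div]
  congr 1 <;> ring

theorem ou_alg2 (a b c d N : C2) (hb : b ≠ 0) (hd : d ≠ 0) (hc : c = a * a) :
    (c * a) * ((a * b) * N) * (d * b)⁻¹ = c * (c * N) * d⁻¹ := by
  subst hc
  field_simp

theorem ou_scale (i j : ℕ) (N : C2) : (64 : C2) ^ i * ((4 : C2) ^ (i + j) * N) * ((64 : C2) ^ j)⁻¹ =
    (16 : C2) ^ i * ((16 : C2) ^ i * N) * ((16 : C2) ^ j)⁻¹ := by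
  have e1 : ∀ n : ℕ, (64 : C2) ^ n = 16 ^ n * 4 ^ n := fun n ↦ by
    rw [← mul_pow]
    norm_num
  have e2 : (16 : C2) ^ i = 4 ^ i * 4 ^ i := by
    rw [← mul_pow]
    norm_num
  rw [e1 i, e1 j, pow_add]
  exact ou_alg2 _ _ _ _ N (pow_ne_zero _ (by norm_num)) (pow_ne_zero _ (by norm_num)) e2

/-- the norms of the entries of `U`, without the factors `3i - 2y` and `3j - 2y` -/
theorem ou_uu {y : C2} (h : Outr y) (i j : ℕ) (hij : i < j) (hj : j ≤ 2 * i) :
    ∃ c : C2, ‖c‖ ≤ 1 ∧ uu y i j = c * (2 * y - 3 * j) / (2 * y - 3 * i) ∧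
      ‖c / (2 * y - 3 * i)‖ ≤ 1 := by
  set c : C2 := (-1) ^ (j - i) * (j.factorial : C2) /
        (((2 * i - j).factorial : C2) * ((j - i).factorial : C2) * 2 ^ (j - i)) *
      (∏ t ∈ Finset.range (j - i), (2 * y - (3 * i + t))) /
      ((∏ t ∈ Finset.range (j - i), (2 * y - (2 * i + 1 + 2 * t))) *
        pr y (2 * i + 1) (j - i)) with hc
  have hodd : ‖∏ t ∈ Finset.range (j - i), (2 * y - (2 * (i : C2) + 1 + 2 * t))‖ = 1 := by
    rw [norm_prod]
    refine Finset.prod_eq_one fun t _ ↦ ?_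
    have := ou_odd h ((i : ℤ) + t)
    push_cast at this
    rw [← this]
    congr 1
    ring
  have hfac : ∀ t : ℕ, ‖2 * y - (3 * (i : C2) + t)‖ ≤ 1 := by
    intro t
    have := ou_le h (3 * i + t)
    push_cast at this
    exact this
  obtain ⟨hρ1, hρ2⟩ := ou_rho h
  have hpr : 1 ≤ ‖pr y (2 * i + 1) (j - i)‖ := by
    rw [ou_pr h]
    exact one_le_pow₀ hρ1.le
  have hcomb := ou_comb i j hij.le hj
  obtain ⟨h3i, h3i'⟩ := ou_two_three h i
  have hne : 2 * y - 3 * (i : C2) ≠ 0 := by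
    rw [← norm_pos_iff]
    linarith
  have hnorm : ∀ q : C2, ‖q‖ ≤ 1 →
      ‖(-1) ^ (j - i) * (j.factorial : C2) /
        (((2 * i - j).factorial : C2) * ((j - i).factorial : C2) * 2 ^ (j - i)) * q /
      ((∏ t ∈ Finset.range (j - i), (2 * y - (2 * i + 1 + 2 * t))) *
        pr y (2 * i + 1) (j - i))‖ ≤ 1 := by
    intro q hq
    rw [norm_div, norm_mul _ (pr y _ _), hodd, one_mul, mul_div_assoc, norm_mul, norm_mul,
      norm_pow, norm_neg, norm_one, one_pow, one_mul]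
    refine div_le_one_of_le₀ ?_ (norm_nonneg _)
    calc _ ≤ (1 : ℝ) * 1 := mul_le_mul hcomb hq (norm_nonneg _) zero_le_one
      _ ≤ _ := by rw [one_mul]; exact hpr
  refine ⟨c, ?_, ?_, ?_⟩
  · rw [hc]
    apply hnorm
    rw [norm_prod]
    exact Finset.prod_le_one (fun t _ ↦ norm_nonneg _) fun t _ ↦ hfac t
  · unfold uu
    rw [if_neg (by omega), if_neg (by omega), hc]
    exact ou_alg _ _ _ _ _ _
  · have hsplit : ∏ t ∈ Finset.range (j - i), (2 * y - (3 * (i : C2) + t)) =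
        (2 * y - 3 * i) * ∏ t ∈ Finset.range (j - i - 1), (2 * y - (3 * (i : C2) + (t + 1 : ℕ))) := by
      obtain ⟨s, hs⟩ : ∃ s, j - i = s + 1 := ⟨j - i - 1, by omega⟩
      rw [hs, Finset.prod_range_succ']
      simp only [Nat.add_sub_cancel, Nat.cast_zero, add_zero]
      ring
    have e : c / (2 * y - 3 * i) = (-1) ^ (j - i) * (j.factorial : C2) /
        (((2 * i - j).factorial : C2) * ((j - i).factorial : C2) * 2 ^ (j - i)) *
        (∏ t ∈ Finset.range (j - i - 1), (2 * y - (3 * (i : C2) + (t + 1 : ℕ)))) /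
        ((∏ t ∈ Finset.range (j - i), (2 * y - (2 * i + 1 + 2 * t))) *
          pr y (2 * i + 1) (j - i)) := by
      rw [hc, hsplit]
      field_simp
    rw [e]
    apply hnorm
    rw [norm_prod]
    exact Finset.prod_le_one (fun t _ ↦ norm_nonneg _) fun t _ ↦ hfac (t + 1)

/-- the products of the factors `2y - s` -/
def ouF (δ : ℝ) (i : ℕ) : ℝ := ∏ s ∈ Finset.range i, if Even s then 1 else δ

theorem ouF_succ_le {δ : ℝ} (h0 : 0 < δ) (h1 : δ ≤ 1) (i : ℕ) : ouF δ (i + 1) ≤ ouF δ i := by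
  unfold ouF
  rw [Finset.prod_range_succ]
  refine mul_le_of_le_one_right ?_ ?_
  · exact Finset.prod_nonneg fun s _ ↦ by split_ifs <;> linarith
  · split_ifs <;> linarith

theorem ouF_pos {δ : ℝ} (h0 : 0 < δ) (i : ℕ) : 0 < ouF δ i := by
  unfold ouF
  exact Finset.prod_pos fun s _ ↦ by split_ifs <;> linarith

theorem ou_dd {y : C2} (h : Outr y) (i : ℕ) (hi : 1 ≤ i) :
    ‖(16 : C2) ^ i * dd y i‖ = (8⁻¹ : ℝ) ^ i * ouF ‖2 * y‖ i := by
  unfold dd
  obtain ⟨hρ1, hρ2⟩ := ou_rho h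
  have hF : ‖∏ s ∈ Finset.range i, (2 * y - (2 * (i : C2) + 1 + s))‖ = ouF ‖2 * y‖ i := by
    unfold ouF
    rw [norm_prod]
    refine Finset.prod_congr rfl fun s _ ↦ ?_
    split_ifs with hs
    · obtain ⟨t, ht⟩ := hs
      have := ou_odd h ((i : ℤ) + t)
      push_cast at this
      rw [← this, ht]
      congr 1
      push_cast
      ring
    · rw [Nat.not_even_iff_odd] at hs
      obtain ⟨t, ht⟩ := hs
      have := ou_even h ((i : ℤ) + t + 1)
      push_cast at this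
      rw [← this, ht]
      congr 1
      push_cast
      ring
  have hρ0 : (2 * ‖2 * y‖) ^ (i - 1) ≠ 0 := pow_ne_zero _ (by linarith)
  rw [norm_mul, norm_div, norm_mul, norm_mul, norm_mul (dfac C2 i), hF, ou_pr h, ou_pr h, ou_dfac,
    norm_pow, norm_pow, norm_div, norm_neg, norm_one, norm_two, ub_norm_16, one_mul]
  rw [mul_div_assoc, div_self hρ0, mul_one, ← mul_assoc, ← mul_pow]
  norm_num

theorem ou_AA_one {y : C2} (h : Outr y) (i : ℕ) : AA y i i = 1 := by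
  have h1 : y - 3 * (i : C2) ≠ 0 := by
    rw [← norm_pos_iff, ou_three h]
    have := (ou_rho h).1
    linarith
  have h2 : dfac C2 i ≠ 0 := by
    rw [← norm_pos_iff, ou_dfac]
    exact one_pos
  unfold AA
  rw [if_neg (by omega)]
  simp only [Nat.sub_self, pow_zero, mul_zero, Nat.factorial_zero, Nat.cast_one, mul_one, one_mul,
    pr, Finset.range_zero, Finset.prod_empty]
  exact div_self (mul_ne_zero h1 h2)

theorem ou_uu_one {y : C2} (h : Outr y) (i : ℕ) : uu y i i = 1 := by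
  have h1 : 2 * y - 3 * (i : C2) ≠ 0 := by
    rw [← norm_pos_iff]
    have := (ou_two_three h i).1
    linarith
  have h2 : ((i.factorial : ℕ) : C2) ≠ 0 := by exact_mod_cast Nat.factorial_ne_zero i
  have e : 2 * i - i = i := by omega
  unfold uu
  rw [if_neg (by omega), if_neg (by omega), e]
  simp only [Nat.sub_self, pow_zero, mul_zero, Nat.factorial_zero, Nat.cast_one, mul_one, one_mul,
    pr, Finset.range_zero, Finset.prod_empty]
  rw [div_self h2, one_mul, div_self h1]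

theorem ou_sum (hanb : Mat.SpANB) {y : C2} (h : Outr y) (i j : ℕ) (hi : 1 ≤ i) (hj : 1 ≤ j) :
    ∑ k ∈ Finset.Icc 1 i, AA y i k * NN y k j = dd y i * uu y i j := by
  have h1 := hanb C2 y (ou_gen h) i j hi hj
  unfold BB at h1
  rw [← h1, Finset.sum_range_succ' , sum_Icc_one]
  have h2 : NN y 0 j = 0 := by
    unfold NN
    rw [if_pos (by omega)]
  rw [h2, mul_zero, add_zero]

/-- Row OUT2. -/
theorem outer_even (hmm : Mat.SpMM) (hanb : Mat.SpANB) (x : C2) (hx : ‖x‖ ≤ 1) (h : 1 / 2 < ‖x‖)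
    (h1 : ‖x - 1‖ = 1) :
    newtonPolygon 2 (fred (Mmat x)) = newtonPolygon 2 fun n ↦ (blk (Mmat x) n).det := by
  have hyx : 2 * (x / 2) = x := by
    field_simp
  have hy : Outr (x / 2) := ⟨by rw [hyx]; exact h, by rw [hyx]; exact hx, by rw [hyx]; exact h1⟩
  set y := x / 2 with hydef
  have h16 : (16 : C2) ≠ 0 := by norm_num
  have hsc : ∀ i j, Mmat x i j = (16 : C2) ^ i * ((16 : C2) ^ i * NN y i j) * ((16 : C2) ^ j)⁻¹ := by
    intro i j
    rw [Mmat_eq_MM, ← hydef, (hmm C2 y i j).1]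
    exact ou_scale i j _
  have hlim : ∀ m, ∃ c, Tendsto (fun N : ℕ ↦ fredBlock (fun i j ↦ (16 : C2) ^ i * NN y i j) N m)
      atTop (𝓝 c) := by
    intro m
    refine ⟨fred (Mmat x) m, ?_⟩
    have h2 := exists_fred (Mmat x) (fun i j hij ↦ by
      unfold Mmat
      rw [if_neg (by omega)]) 4 1 (by norm_num) (fun i j hij ↦ by
        rw [one_mul]
        exact norm_Mmat_le hx hij) m
    refine h2.congr fun N ↦ ?_
    exact fredBlock_scale _ _ 16 h16 hsc N m
  have hmain := newtonPolygon_of_lu (fun i j ↦ (16 : C2) ^ i * NN y i j)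
    (fun i k ↦ (16 : C2) ^ (i - k) * AA y i k) (fun i j ↦ uu y i j)
    (fun i ↦ (16 : C2) ^ i * dd y i) hlim
    (fun i _ ↦ by rw [Nat.sub_self, pow_zero, one_mul, ou_AA_one hy])
    (fun i k _ hki ↦ ou_AA hy i k hki)
    (fun i _ ↦ ou_uu_one hy i)
    (fun i j _ hji ↦ by
      show uu y i j = 0
      unfold uu
      rw [if_pos hji])
    (fun i j _ hij ↦ by
      show ‖uu y i j‖ ≤ 1
      by_cases hj : j ≤ 2 * i
      · obtain ⟨c, hc1, hc2, hc3⟩ := ou_uu hy i j hij hj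
        rw [hc2, mul_div_right_comm, norm_mul]
        exact mul_le_one₀ hc3 (norm_nonneg _) (ou_two_three hy j).2
      · unfold uu
        rw [if_neg (by omega), if_pos (by omega), norm_zero]
        exact zero_le_one)
    (fun i j hi hj ↦ by
      have h2 := ou_sum hanb hy i j hi hj
      rw [mul_assoc, ← h2, Finset.mul_sum]
      refine Finset.sum_congr rfl fun k hk ↦ ?_
      rw [Finset.mem_Icc] at hk
      have h3 : (16 : C2) ^ i = 16 ^ (i - k) * 16 ^ k := by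
        rw [← pow_add]
        congr 1
        omega
      rw [h3]
      ring)
    (fun i hi ↦ by
      rw [ou_dd hy i hi, ou_dd hy (i + 1) (by omega)]
      have hF := ouF_succ_le (δ := ‖2 * y‖) (by have := hy.lo; linarith) hy.hi i
      have hF0 := ouF_pos (δ := ‖2 * y‖) (by have := hy.lo; linarith) i
      have h8 : (0 : ℝ) < 8⁻¹ ^ i := by positivity
      rw [pow_succ, mul_assoc]
      apply mul_lt_mul_of_pos_left _ h8
      linarith)
  rw [newtonPolygon_congr (fred (Mmat x)) (fred fun i j ↦ (16 : C2) ^ i * NN y i j)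
    (fun n ↦ by rw [fred_scale _ _ 16 h16 hsc n]), hmain]
  exact newtonPolygon_congr _ _ fun n ↦ by rw [det_blk_scale _ _ 16 h16 hsc n]

/-- Row OUT3. -/
theorem outer_odd (hmm : Mat.SpMM) (hanb : Mat.SpANB) (x : C2) (h1 : ‖x - 1‖ < 1)
    (h : 1 / 2 < ‖x - 1‖) :
    newtonPolygon 2 (fred (Modd x)) = newtonPolygon 2 fun n ↦ (blk (Modd x) n).det := by
  have hx : ‖x‖ ≤ 1 := by
    have e : x = 1 + (x - 1) := by ring
    rw [e, ou_add (by rw [norm_one]; exact h1), norm_one]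
  have hyx : 2 * ((x - 1) / 2) = x - 1 := by
    field_simp
  have hy : Outr ((x - 1) / 2) := ⟨by rw [hyx]; exact h, by rw [hyx]; exact h1.le, by
    rw [hyx]
    have e : x - 1 - 1 = -1 + (x - 1) := by ring
    rw [e, ou_add (by rw [norm_neg, norm_one]; exact h1), norm_neg, norm_one]⟩
  set y := (x - 1) / 2 with hydef
  have h16 : (16 : C2) ≠ 0 := by norm_num
  have hsc : ∀ i j, Modd x i j =
      (16 : C2) ^ i * ((16 : C2) ^ i * NNo y i j) * ((16 : C2) ^ j)⁻¹ := by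
    intro i j
    rw [Modd_eq_MM, ← hydef, (hmm C2 y i j).2.1]
    exact ou_scale i j _
  have hlim : ∀ m, ∃ c, Tendsto (fun N : ℕ ↦ fredBlock (fun i j ↦ (16 : C2) ^ i * NNo y i j) N m)
      atTop (𝓝 c) := by
    intro m
    refine ⟨fred (Modd x) m, ?_⟩
    have h2 := exists_fred (Modd x) (fun i j hij ↦ by
      unfold Modd
      rw [if_neg (by omega)]) 4 1 (by norm_num) (fun i j hij ↦ by
        rw [one_mul]
        exact norm_Modd_le hx hij) m
    refine h2.congr fun N ↦ ?_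
    exact fredBlock_scale _ _ 16 h16 hsc N m
  have hne2 : ∀ j : ℕ, 3 * (j : C2) - 2 * y ≠ 0 := by
    intro j
    rw [← norm_pos_iff, norm_sub_rev]
    have := (ou_two_three hy j).1
    linarith
  have hne1 : ∀ k : ℕ, 3 * (k : C2) - y ≠ 0 := by
    intro k
    rw [← norm_pos_iff, norm_sub_rev, ou_three hy]
    have := (ou_rho hy).1
    linarith
  have hno : ∀ k j : ℕ, NNo y k j = 2 * (3 * (k : C2) - y) * NN y k j / (3 * (j : C2) - 2 * y) := by
    intro k j
    rw [eq_div_iff (hne2 j)]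
    exact (hmm C2 y k j).2.2
  have hmain := newtonPolygon_of_lu (fun i j ↦ (16 : C2) ^ i * NNo y i j)
    (fun i k ↦ (16 : C2) ^ (i - k) * AA y i k * ((3 * (i : C2) - y) / (3 * (k : C2) - y)))
    (fun i j ↦ uu y i j * ((3 * (i : C2) - 2 * y) / (3 * (j : C2) - 2 * y)))
    (fun i ↦ (16 : C2) ^ i * dd y i * (2 * (3 * (i : C2) - y) / (3 * (i : C2) - 2 * y))) hlim
    (fun i _ ↦ by rw [Nat.sub_self, pow_zero, one_mul, ou_AA_one hy, one_mul, div_self (hne1 i)])
    (fun i k _ hki ↦ by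
      have h2 : ‖(3 * (i : C2) - y) / (3 * (k : C2) - y)‖ = 1 := by
        rw [norm_div, norm_sub_rev, norm_sub_rev _ y, ou_three hy, ou_three hy]
        apply div_self
        have := (ou_rho hy).1
        linarith
      show ‖(16 : C2) ^ (i - k) * AA y i k * ((3 * (i : C2) - y) / (3 * (k : C2) - y))‖ < 1
      rw [norm_mul, h2, mul_one]
      exact ou_AA hy i k hki)
    (fun i _ ↦ by rw [ou_uu_one hy, one_mul, div_self (hne2 i)])
    (fun i j _ hji ↦ by
      show uu y i j * _ = 0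
      unfold uu
      rw [if_pos hji, zero_mul])
    (fun i j _ hij ↦ by
      show ‖uu y i j * ((3 * (i : C2) - 2 * y) / (3 * (j : C2) - 2 * y))‖ ≤ 1
      by_cases hj : j ≤ 2 * i
      · obtain ⟨c, hc1, hc2, hc3⟩ := ou_uu hy i j hij hj
        have e : uu y i j * ((3 * (i : C2) - 2 * y) / (3 * (j : C2) - 2 * y)) = c := by
          have hi3 := hne2 i
          have hj3 := hne2 j
          have e1 : 2 * y - 3 * (i : C2) = -(3 * (i : C2) - 2 * y) := by ring
          have e2 : 2 * y - 3 * (j : C2) = -(3 * (j : C2) - 2 * y) := by ring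
          rw [hc2, e1, e2]
          field_simp
        rw [e]
        exact hc1
      · unfold uu
        rw [if_neg (by omega), if_pos (by omega), zero_mul, norm_zero]
        exact zero_le_one)
    (fun i j hi hj ↦ by
      have h2 := ou_sum hanb hy i j hi hj
      have hi3 := hne2 i
      have hj3 := hne2 j
      have e : (16 : C2) ^ i * dd y i * (2 * (3 * (i : C2) - y) / (3 * (i : C2) - 2 * y)) *
          (uu y i j * ((3 * (i : C2) - 2 * y) / (3 * (j : C2) - 2 * y))) =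
          (16 : C2) ^ i * (2 * (3 * (i : C2) - y) / (3 * (j : C2) - 2 * y)) *
            (dd y i * uu y i j) := by
        field_simp
      rw [e, ← h2, Finset.mul_sum]
      refine Finset.sum_congr rfl fun k hk ↦ ?_
      rw [Finset.mem_Icc] at hk
      have h3 : (16 : C2) ^ i = 16 ^ (i - k) * 16 ^ k := by
        rw [← pow_add]
        congr 1
        omega
      have hk3 := hne1 k
      rw [h3, hno k j]
      field_simp)
    (fun i hi ↦ by
      have hlo := hy.lo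
      have hn : ∀ m : ℕ, 1 ≤ m → ‖(16 : C2) ^ m * dd y m *
          (2 * (3 * (m : C2) - y) / (3 * (m : C2) - 2 * y))‖ =
          (8⁻¹ : ℝ) ^ m * ouF ‖2 * y‖ m * (‖2 * y‖ / ‖2 * y - 3 * (m : C2)‖) := by
        intro m hm
        have e0 : ‖2 * (3 * (m : C2) - y)‖ = ‖2 * y‖ := by
          rw [norm_mul 2 (3 * (m : C2) - y), norm_two, norm_sub_rev, ou_three hy]
          ring
        rw [norm_mul, ou_dd hy m hm, norm_div, e0, norm_sub_rev (3 * (m : C2)) (2 * y)]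
      rw [hn i hi, hn (i + 1) (by omega)]
      obtain ⟨ha1, ha2⟩ := ou_two_three hy i
      obtain ⟨hb1, hb2⟩ := ou_two_three hy (i + 1)
      have hF := ouF_succ_le (δ := ‖2 * y‖) (by linarith) hy.hi i
      have hF0 := ouF_pos (δ := ‖2 * y‖) (by linarith) i
      have hF1 := ouF_pos (δ := ‖2 * y‖) (by linarith) (i + 1)
      have h8 : (0 : ℝ) < 8⁻¹ ^ i := by positivity
      have hz : 0 < ‖2 * y‖ := by linarith
      have e1 : (8⁻¹ : ℝ) ^ (i + 1) * ouF ‖2 * y‖ (i + 1) *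
          (‖2 * y‖ / ‖2 * y - 3 * ((i + 1 : ℕ) : C2)‖) ≤
          (8⁻¹ : ℝ) ^ (i + 1) * ouF ‖2 * y‖ i * (‖2 * y‖ / (1 / 2)) := by
        apply mul_le_mul _ _ (by positivity) (by positivity)
        · exact mul_le_mul_of_nonneg_left hF (by positivity)
        · exact div_le_div_of_nonneg_left hz.le (by norm_num) hb1.le
      have e2 : (8⁻¹ : ℝ) ^ i * ouF ‖2 * y‖ i * ‖2 * y‖ ≤
          (8⁻¹ : ℝ) ^ i * ouF ‖2 * y‖ i * (‖2 * y‖ / ‖2 * y - 3 * (i : C2)‖) := by
        apply mul_le_mul_of_nonneg_left _ (by positivity)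
        rw [le_div_iff₀ (by linarith)]
        nlinarith
      have e3 : (8⁻¹ : ℝ) ^ (i + 1) * ouF ‖2 * y‖ i * (‖2 * y‖ / (1 / 2)) <
          (8⁻¹ : ℝ) ^ i * ouF ‖2 * y‖ i * ‖2 * y‖ := by
        have h9 : (0 : ℝ) < 8⁻¹ ^ i * ouF ‖2 * y‖ i * ‖2 * y‖ := by positivity
        have h10 : (8⁻¹ : ℝ) ^ (i + 1) * ouF ‖2 * y‖ i * (‖2 * y‖ / (1 / 2)) =
            (1 / 4) * (8⁻¹ ^ i * ouF ‖2 * y‖ i * ‖2 * y‖) := by
          rw [pow_succ]
          ring
        rw [h10]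
        linarith
      exact e1.trans_lt (e3.trans_le e2))
  rw [newtonPolygon_congr (fred (Modd x)) (fred fun i j ↦ (16 : C2) ^ i * NNo y i j)
    (fun n ↦ by rw [fred_scale _ _ 16 h16 hsc n]), hmain]
  exact newtonPolygon_congr _ _ fun n ↦ by rw [det_blk_scale _ _ 16 h16 hsc n]

theorem outer_of (hmm : Mat.SpMM) (hanb : Mat.SpANB) : OuterStatement :=
  ⟨fun x hx h h1 ↦ outer_even hmm hanb x hx h h1, fun x h1 h ↦ outer_odd hmm hanb x h1 h⟩

end GH.Cen
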