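import Pool.Agent.GH.Cen.Defs

/-!
# Diagonal change of basis for the blocks
-/

noncomputable section

namespace GH.Cen


theorem fredBlock_scale {K : Type*} [Field K] (C C' : ℕ → ℕ → K) (r : K) (hr : r ≠ 0)
    (h : ∀ i j, C i j = r ^ i * C' i j * (r ^ j)⁻¹) (N m : ℕ) :
    fredBlock C N m = fredBlock C' N m := by
  unfold fredBlock Matrix.charpolyRev
  set P : Matrix (Fin N) (Fin N) (Polynomial K) :=
    Matrix.diagonal fun i ↦ Polynomial.C (r ^ ((i : ℕ) + 1)) with hP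
  set Q : Matrix (Fin N) (Fin N) (Polynomial K) :=
    Matrix.diagonal fun i ↦ Polynomial.C ((r ^ ((i : ℕ) + 1))⁻¹) with hQ
  have hPQ : P * Q = 1 := by
    rw [hP, hQ, Matrix.diagonal_mul_diagonal, ← Matrix.diagonal_one]
    congr 1
    funext i
    rw [← Polynomial.C_mul, mul_inv_cancel₀ (pow_ne_zero _ hr), Polynomial.C_1]
  have hdet : P.det * Q.det = 1 := by rw [← Matrix.det_mul, hPQ, Matrix.det_one]
  have hM : (1 - (Polynomial.X : Polynomial K) •
      (Matrix.of fun i j : Fin N ↦ C (i + 1) (j + 1)).map Polynomial.C) =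
      P * (1 - (Polynomial.X : Polynomial K) •
      (Matrix.of fun i j : Fin N ↦ C' (i + 1) (j + 1)).map Polynomial.C) * Q := by
    rw [mul_sub, sub_mul, mul_one, hPQ]
    congr 1
    ext1 i j
    simp only [hP, hQ, Matrix.mul_smul, Matrix.smul_apply,
      Matrix.mul_diagonal, Matrix.diagonal_mul, Matrix.map_apply, Matrix.of_apply, smul_eq_mul,
      ← Polynomial.C_mul, h, mul_assoc]
  rw [hM, Matrix.det_mul, Matrix.det_mul, mul_right_comm, hdet, one_mul]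

theorem fred_scale {K : Type*} [NormedField K] (C C' : ℕ → ℕ → K) (r : K) (hr : r ≠ 0)
    (h : ∀ i j, C i j = r ^ i * C' i j * (r ^ j)⁻¹) (m : ℕ) : fred C m = fred C' m := by
  unfold fred
  simp only [fredBlock_scale C C' r hr h]

theorem Mmat_eq_MM (x : C2) (i j : ℕ) :
    Mmat x i j = (64 : C2) ^ i * MM 0 (x / 2) i j * ((64 : C2) ^ j)⁻¹ := by
  unfold Mmat MM
  split_ifs with hij
  · have h2 : (2 : C2) ≠ 0 := two_ne_zero
    have e1 : (64 : C2) ^ i * ((2 : C2) ^ (6 * ((j : ℤ) - i))) * ((64 : C2) ^ j)⁻¹ = 1 := by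
      rw [show (64 : C2) = 2 ^ (6 : ℤ) by norm_num, ← zpow_natCast, ← zpow_natCast, ← zpow_mul,
        ← zpow_mul, ← zpow_neg, ← zpow_add₀ h2, ← zpow_add₀ h2]
      rw [show (6 : ℤ) * (i : ℕ) + 6 * ((j : ℤ) - i) + -(6 * (j : ℕ)) = 0 by ring, zpow_zero]
    calc _ = ((64 : C2) ^ i * ((2 : C2) ^ (6 * ((j : ℤ) - i))) * ((64 : C2) ^ j)⁻¹) *
          PowerSeries.coeff (2 * i - j) ((1 + PowerSeries.C (8 : C2) * PowerSeries.X) *
            PowerSeries.rescale (16 : C2) (binS ((i : C2) + j - 1 - x / 2))) := by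
          rw [e1, one_mul]
      _ = _ := by
          rw [pow_zero, mul_one]
          ring
  · simp

theorem Modd_eq_MM (x : C2) (i j : ℕ) :
    Modd x i j = (64 : C2) ^ i * MM 1 ((x - 1) / 2) i j * ((64 : C2) ^ j)⁻¹ := by
  unfold Modd MM
  split_ifs with hij
  · have h2 : (2 : C2) ≠ 0 := two_ne_zero
    have e1 : (64 : C2) ^ i * ((2 : C2) ^ (6 * ((j : ℤ) - i))) * ((64 : C2) ^ j)⁻¹ = 1 := by
      rw [show (64 : C2) = 2 ^ (6 : ℤ) by norm_num, ← zpow_natCast, ← zpow_natCast, ← zpow_mul,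
        ← zpow_mul, ← zpow_neg, ← zpow_add₀ h2, ← zpow_add₀ h2]
      rw [show (6 : ℤ) * (i : ℕ) + 6 * ((j : ℤ) - i) + -(6 * (j : ℕ)) = 0 by ring, zpow_zero]
    have e2 : (i : C2) + j - 1 - (x - 1) / 2 = (i : C2) + j - 1 / 2 - x / 2 := by ring
    calc _ = ((64 : C2) ^ i * ((2 : C2) ^ (6 * ((j : ℤ) - i))) * ((64 : C2) ^ j)⁻¹) *
          PowerSeries.coeff (2 * i - j) ((1 + PowerSeries.C (32 : C2) * PowerSeries.X) *
            PowerSeries.rescale (16 : C2) (binS ((i : C2) + j - 1 / 2 - x / 2))) := by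
          rw [e1, one_mul]
      _ = _ := by
          rw [e2, show (8 * 4 ^ 1 : C2) = 32 by norm_num]
          ring
  · simp

theorem scale (x : C2) : (∀ m, fred (Mmat x) m = fred (MM 0 (x / 2)) m) ∧
    (∀ m, fred (Modd x) m = fred (MM 1 ((x - 1) / 2)) m) :=
  ⟨fun m ↦ fred_scale _ _ 64 (by norm_num) (Mmat_eq_MM x) m,
    fun m ↦ fred_scale _ _ 64 (by norm_num) (Modd_eq_MM x) m⟩

theorem det_blk_scale {K : Type*} [Field K] (C C' : ℕ → ℕ → K) (r : K) (hr : r ≠ 0)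
    (h : ∀ i j, C i j = r ^ i * C' i j * (r ^ j)⁻¹) (n : ℕ) :
    (blk C n).det = (blk C' n).det := by
  set P : Matrix (Fin n) (Fin n) K := Matrix.diagonal fun i ↦ r ^ ((i : ℕ) + 1) with hP
  set Q : Matrix (Fin n) (Fin n) K := Matrix.diagonal fun i ↦ (r ^ ((i : ℕ) + 1))⁻¹ with hQ
  have hPQ : P * Q = 1 := by
    rw [hP, hQ, Matrix.diagonal_mul_diagonal, ← Matrix.diagonal_one]
    congr 1
    funext i
    rw [mul_inv_cancel₀ (pow_ne_zero _ hr)]
  have hdet : P.det * Q.det = 1 := by rw [← Matrix.det_mul, hPQ, Matrix.det_one]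
  have hM : blk C n = P * blk C' n * Q := by
    ext1 i j
    simp only [hP, hQ, Matrix.mul_diagonal, Matrix.diagonal_mul, Matrix.of_apply, blk, h]
  rw [hM, Matrix.det_mul, Matrix.det_mul, mul_right_comm, hdet, one_mul]

theorem scale_det (x : C2) :
    (∀ n, (blk (Mmat x) n).det = (blk (MM 0 (x / 2)) n).det) ∧
    (∀ n, (blk (Modd x) n).det = (blk (MM 1 ((x - 1) / 2)) n).det) :=
  ⟨fun n ↦ det_blk_scale _ _ 64 (by norm_num) (Mmat_eq_MM x) n,
    fun n ↦ det_blk_scale _ _ 64 (by norm_num) (Modd_eq_MM x) n⟩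

end GH.Cen
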