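import Pool.Agent.GH.Cen.PotGlue
import Pool.Agent.GH.Cen.Outer
import Pool.Agent.GH.Mat.Main
import Pool.Agent.GH.Mat.Root
import Pool.Agent.GH.Mat.Abs
import Pool.Agent.GH.Mat.RankMM
import Pool.Agent.GH.Mat.WzStep
import Pool.Agent.GH.Mat.Rec

/-!
# The ghost conjecture for `p = 2`, `N = 1`
-/

noncomputable section

namespace GH.Cen

open GH.Mat

theorem centralTheorem_of (h1 : SpWzStep) (h3 : SpRec) : CentralTheorem := by
  have hA : SpANB := spANB_of h1 h3
  exact central (pot spEval eightPM (spMat_of hA)) (minor_of hA) (outer_of spMM hA)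

theorem centralTheorem : CentralTheorem := centralTheorem_of wzStep recB

end GH.Cen

theorem GH.ghostConjecture_two_one : GH.GhostConjecture 2 :=
  GH.ghostConjecture_two GH.Cen.centralTheorem
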