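import Pool.Agent.GH.Cen.Tent
import Pool.Agent.GH.Comb.Bridge
import Pool.Agent.GH.Pot.Defs

/-!
# The combinatorial input of GH-POT from GH-COMB
-/

noncomputable section

namespace GH.Cen

theorem tau_eq (p c ν m : ℕ) : Pot.tau p c ν m = tau p ν (c : ℤ) (m : ℤ) := by
  unfold Pot.tau tau
  congr 1
  ext i
  simp only [Finset.mem_filter, and_congr_right_iff]
  intro _
  rw [Nat.modEq_iff_dvd, dvd_sub_comm]
  push_cast
  rfl

theorem fv_eq {e : ℕ} (he : e ≤ 1) (n c ν : ℕ) :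
    ((Pot.fv 2 (B e) (fun n ↦ 3 * n + 2) (fun n m ↦ tent e m n) n c ν : ℕ) : ℤ) =
      f e ν (c : ℤ) n := by
  rw [f_eq_tent he, Pot.fv]
  push_cast
  congr 1
  exact Finset.sum_congr rfl fun m _ ↦ by rw [tau_eq]

/-- `tau > G` implies the divisibility by `2^(G+1)`. -/
theorem dvd_of_lt_tau {p ν G : ℕ} {c m : ℤ} (h : G < tau p ν c m) :
    (p : ℤ) ^ (G + 1) ∣ m - c := by
  by_contra hn
  have hsub : ((Finset.Icc 1 ν).filter fun i : ℕ ↦ (p : ℤ) ^ i ∣ m - c) ⊆ Finset.Icc 1 G := by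
    intro i hi
    simp only [Finset.mem_filter, Finset.mem_Icc] at hi ⊢
    refine ⟨hi.1.1, ?_⟩
    by_contra hlt
    exact hn ((pow_dvd_pow _ (by omega)).trans hi.2)
  have := Finset.card_le_card hsub
  rw [Nat.card_Icc] at this
  unfold tau at h
  omega

theorem tau_le_of_ne {ν G : ℕ} {c : ℤ} {m m' : ℕ} (hm : G < tau 2 ν c m) (hne : m ≠ m')
    (h1 : m < G) (h2 : m' < G) : tau 2 ν c m' ≤ G := by
  by_contra h
  have d1 := dvd_of_lt_tau hm
  have d2 := dvd_of_lt_tau (not_le.mp h)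
  have d3 : (2 : ℤ) ^ (G + 1) ∣ (m : ℤ) - m' := by
    have := dvd_sub d1 d2
    simpa using this
  have hlt : (G : ℤ) < 2 ^ (G + 1) := by
    have : G < 2 ^ (G + 1) := (Nat.lt_two_pow_self).trans (Nat.pow_lt_pow_right (by norm_num)
      (Nat.lt_succ_self _))
    exact_mod_cast this
  have := Int.eq_zero_of_abs_lt_dvd d3 (by rw [abs_lt]; constructor <;> omega)
  omega

/-- The bound of Claim A. -/
def bd (e G k : ℕ) : ℕ := B e k + ∑ m ∈ Finset.range (3 * k + 2), tent e m k * G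

theorem f_le_bd {e : ℕ} (he : e ≤ 1) {ν G k : ℕ} {c : ℤ}
    (h : ∀ m < 3 * k + 2, tent e m k ≠ 0 → tau 2 ν c m ≤ G) : f e ν c k ≤ bd e G k := by
  rw [f_eq_tent he, bd]
  push_cast
  have h2 : ∑ m ∈ Finset.range (3 * k + 2), (tent e m k : ℤ) * tau 2 ν c m ≤
      ∑ m ∈ Finset.range (3 * k + 2), (tent e m k : ℤ) * G := by
    refine Finset.sum_le_sum fun m hm ↦ ?_
    by_cases h0 : tent e m k = 0
    · rw [h0]; simp
    · have h1 : (tau 2 ν c m : ℤ) ≤ G := by exact_mod_cast h m (Finset.mem_range.mp hm) h0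
      exact mul_le_mul_of_nonneg_left h1 (Int.natCast_nonneg _)
  linarith

theorem exists_le_bd {e : ℕ} (he : e ≤ 1) (n : ℕ) (ν : ℕ) (c : ℤ) :
    ∃ k, n ≤ k ∧ k ≤ 3 * n + 2 ∧ f e ν c k ≤ bd e (9 * n + 9) k := by
  by_cases h : ∀ m < 3 * n + 2, tent e m n ≠ 0 → tau 2 ν c m ≤ 9 * n + 9
  · exact ⟨n, le_rfl, by omega, f_le_bd he h⟩
  · push Not at h
    obtain ⟨m, hm, ht, hG⟩ := h
    have hk : n < m - 1 - tm e m := by
      unfold tent at ht
      omega
    refine ⟨m - 1 - tm e m, hk.le, by omega, f_le_bd he fun m' hm' ht' ↦ ?_⟩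
    refine tau_le_of_ne hG ?_ (by omega) (by omega)
    rintro rfl
    apply ht'
    unfold tent
    omega

theorem B_le_f {e : ℕ} (he : e ≤ 1) (ν : ℕ) (c : ℤ) (n : ℕ) : (B e n : ℤ) ≤ f e ν c n := by
  rw [f_eq_tent he]
  have : 0 ≤ ∑ m ∈ Finset.range (3 * n + 2), (tent e m n : ℤ) * tau 2 ν c m :=
    Finset.sum_nonneg fun m _ ↦ mul_nonneg (Int.natCast_nonneg _) (Int.natCast_nonneg _)
  linarith

/-- A convex minorant is below the hull. -/
theorem le_hull {f h g : ℕ → ℤ} (hh : IsHull f h) (hg : ∀ n, 2 * g (n + 1) ≤ g n + g (n + 2))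
    (hgf : ∀ n, g n ≤ f n) (n : ℕ) : g n ≤ h n := by
  by_contra hn
  have hex : ∃ n, h n < g n := ⟨n, not_le.mp hn⟩
  classical
  set j := Nat.find hex with hj
  have hj1 : h j < g j := Nat.find_spec hex
  have hj0 : j ≠ 0 := by
    intro h0
    rw [h0, hh.zero] at hj1
    exact absurd (hgf 0) (not_le.mpr hj1)
  obtain ⟨i, hi⟩ : ∃ i, j = i + 1 := ⟨j - 1, by omega⟩
  have hi1 : g i ≤ h i := by
    have := Nat.find_min hex (m := i) (by omega)
    exact not_lt.mp this
  have key : ∀ l, h (i + 1 + l) < g (i + 1 + l) ∧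
      h (i + 1 + l) - g (i + 1 + l) < h (i + l) - g (i + l) := by
    intro l
    induction l with
    | zero =>
      rw [hi] at hj1
      simp only [add_zero]
      exact ⟨hj1, by linarith⟩
    | succ l ih =>
      have h1 := hh.lin (i + l) (by
        have := ih.1
        have h2 := hgf (i + 1 + l)
        rw [show i + l + 1 = i + 1 + l by ring]
        linarith)
      have h2 := hg (i + l)
      rw [show i + l + 1 = i + 1 + l by ring, show i + l + 2 = i + 1 + (l + 1) by ring] at h1 h2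
      obtain ⟨h3, h4⟩ := ih
      rw [show i + (l + 1) = i + 1 + l by ring]
      constructor <;> linarith
  obtain ⟨b, hb, hb'⟩ := hh.touch (i + 1)
  obtain ⟨l, rfl⟩ := Nat.exists_eq_add_of_le hb
  have h1 := (key l).1
  have h2 := hgf (i + 1 + l)
  rw [hb'] at h1
  linarith

theorem B_conv (e n : ℕ) : 2 * (B e (n + 1) : ℤ) ≤ B e n + B e (n + 2) := by
  rw [B_succ e (n + 1), B_succ e n]
  push_cast
  omega

theorem sq_le_B (e n : ℕ) : n * n ≤ B e n := by
  induction n with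
  | zero => simp
  | succ n ih =>
    rw [B_succ]
    nlinarith [Nat.zero_le ((n + 1 + e) / 2)]

theorem near {e : ℕ} (he : e ≤ 1) {H : ℕ → ℤ → ℕ → ℤ} (hH : KProps (f e) H) (n : ℕ) :
    ∃ Q, ∀ (c : ℤ) (ν : ℕ), ∃ b, n ≤ b ∧ b ≤ Q ∧ Vtx (H ν c) b := by
  obtain ⟨C, hC⟩ : ∃ C : ℕ, ∀ k ≤ 3 * n + 2, bd e (9 * n + 9) k ≤ C :=
    ⟨∑ k ∈ Finset.range (3 * n + 3), bd e (9 * n + 9) k, fun k hk ↦
      Finset.single_le_sum (f := fun k ↦ bd e (9 * n + 9) k) (fun _ _ ↦ Nat.zero_le _)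
        (Finset.mem_range.mpr (by omega))⟩
  refine ⟨C + 3 * n + 5, fun c ν ↦ ?_⟩
  by_contra hno
  push Not at hno
  have hh := hH.hull ν c
  obtain ⟨k, hk1, hk2, hk3⟩ := exists_le_bd he n ν c
  have hkC : f e ν c k ≤ C := hk3.trans (by exact_mod_cast hC k hk2)
  set h := H ν c with hh'
  have hBh : ∀ n, (B e n : ℤ) ≤ h n :=
    le_hull hh (fun n ↦ B_conv e n) (fun n ↦ B_le_f he ν c n)
  have hn0 : n ≠ 0 := by
    rintro rfl
    exact hno 0 le_rfl (by omega) (Or.inl rfl)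
  obtain ⟨i, rfl⟩ : ∃ i, n = i + 1 := ⟨n - 1, by omega⟩
  have hstep : ∀ l, i + 1 + l ≤ C + 3 * (i + 1) + 5 →
      h (i + 1 + l + 1) - h (i + 1 + l) = h (i + 1) - h i := by
    intro l
    induction l with
    | zero =>
      intro _
      have h1 := hno (i + 1) le_rfl (by omega)
      have h2 := hh.conv i
      unfold Vtx at h1
      push Not at h1
      have h3 := h1.2
      simp only [Nat.add_sub_cancel] at h3
      simp only [add_zero]
      have e1 : i + 1 + 1 = i + 2 := by ring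
      rw [e1] at h3 ⊢
      linarith
    | succ l ih =>
      intro hl
      have h0 := ih (by omega)
      have h1 := hno (i + 1 + (l + 1)) (by omega) hl
      have h2 := hh.conv (i + 1 + l)
      unfold Vtx at h1
      push Not at h1
      have h3 := h1.2
      have e1 : i + 1 + (l + 1) - 1 = i + 1 + l := by omega
      have e2 : i + 1 + l + 2 = i + 1 + (l + 1) + 1 := by ring
      have e3 : i + 1 + (l + 1) = i + 1 + l + 1 := by ring
      rw [e1] at h3
      rw [e2] at h2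
      rw [e3] at h3 h2 ⊢
      linarith
  set s := h (i + 1) - h i with hs
  have hlin : ∀ l, i + l ≤ C + 3 * (i + 1) + 6 → h (i + l) = h i + s * l := by
    intro l
    induction l with
    | zero => intro _; simp
    | succ l ih =>
      intro hl
      rcases Nat.eq_zero_or_pos l with rfl | hlp
      · simp [hs]
      · obtain ⟨l', rfl⟩ : ∃ l', l = l' + 1 := ⟨l - 1, by omega⟩
        have h1 := ih (by omega)
        have h2 := hstep l' (by omega)
        have e1 : i + 1 + l' + 1 = i + (l' + 1 + 1) := by ring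
        have e2 : i + 1 + l' = i + (l' + 1) := by ring
        rw [e1, e2, h1] at h2
        push_cast at h2 ⊢
        linarith
  obtain ⟨l, rfl⟩ := Nat.exists_eq_add_of_le (show i ≤ k by omega)
  have hl1 : 1 ≤ l := by omega
  have h1 := hlin l (by omega)
  have h2 : h (i + l) ≤ C := (hh.le _).trans hkC
  have h3 : 0 ≤ h i := le_trans (by positivity) (hBh i)
  have hsC : s ≤ C := by
    by_contra hsC
    have hl1' : (1 : ℤ) ≤ l := by exact_mod_cast hl1
    nlinarith
  have h4 := hlin (C + 3 * (i + 1) + 6 - i) (by omega)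
  have e3 : i + (C + 3 * (i + 1) + 6 - i) = C + 3 * (i + 1) + 6 := by omega
  rw [e3] at h4
  have h5 := hBh (C + 3 * (i + 1) + 6)
  have h6 : ((C + 3 * (i + 1) + 6) * (C + 3 * (i + 1) + 6) : ℕ) ≤ (B e (C + 3 * (i + 1) + 6) : ℤ) := by
    exact_mod_cast sq_le_B e _
  have h7 : h i ≤ C := by
    by_contra h7
    have hC0 : (0 : ℤ) ≤ C := by positivity
    -- if `h i > C` then `s < 0`, so `h` becomes negative
    have hs0 : s < 0 := by
      by_contra hs0
      have : (0 : ℤ) ≤ s * l := by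
        have : (0 : ℤ) ≤ l := by positivity
        nlinarith
      linarith
    have h8 : h (C + 3 * (i + 1) + 6) ≤ h (i + l) := by
      rw [h1, h4]
      have : (l : ℤ) ≤ ((C + 3 * (i + 1) + 6 - i : ℕ) : ℤ) := by
        exact_mod_cast (show l ≤ C + 3 * (i + 1) + 6 - i by omega)
      nlinarith
    push_cast at h6
    nlinarith
  have h9 : ((C + 3 * (i + 1) + 6 - i : ℕ) : ℤ) ≤ C + 3 * (i + 1) + 6 := by
    have : (C + 3 * (i + 1) + 6 - i : ℕ) ≤ C + 3 * (i + 1) + 6 := by omega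
    exact_mod_cast this
  have h10 : (0 : ℤ) ≤ ((C + 3 * (i + 1) + 6 - i : ℕ) : ℤ) := by positivity
  have hC0 : (0 : ℤ) ≤ C := by positivity
  have h11 : s * ((C + 3 * (i + 1) + 6 - i : ℕ) : ℤ) ≤ C * (C + 3 * (i + 1) + 6) := by
    calc s * ((C + 3 * (i + 1) + 6 - i : ℕ) : ℤ) ≤ C * ((C + 3 * (i + 1) + 6 - i : ℕ) : ℤ) :=
          mul_le_mul_of_nonneg_right hsC h10
      _ ≤ C * (C + 3 * (i + 1) + 6) := mul_le_mul_of_nonneg_left h9 hC0
  push_cast at h6
  have hi0 : (0 : ℤ) ≤ i := by positivity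
  nlinarith

theorem potComb {e : ℕ} (he : e ≤ 1) : ∃ h : ℕ → ℕ → ℕ → ℤ,
    Pot.Comb 2 (B e) (fun n ↦ 3 * n + 2) (fun n m ↦ tent e m n) (sig e) (tm e) h := by
  obtain ⟨H, hH⟩ := Comb.comb he
  refine ⟨fun n c ν ↦ H ν (c : ℤ) n, ?_⟩
  constructor
  · intro c ν
    have h := hH.hull ν c
    constructor
    · intro n
      rw [fv_eq he]
      exact h.le n
    · rw [fv_eq he]
      exact h.zero
    · exact h.conv
    · intro n hn
      rw [fv_eq he] at hn
      exact h.lin n hn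
    · intro n
      obtain ⟨b, hb, hb'⟩ := h.touch n
      exact ⟨b, hb, by rw [fv_eq he]; exact hb'⟩
  · intro n
    obtain ⟨Q, hQ⟩ := near he hH n
    exact ⟨Q, fun c ν ↦ hQ c ν⟩
  · intro n c ν hv
    rw [fv_eq he, fv_eq he]
    exact hH.k1 ν c n hv
  · intro n c ν hv
    rw [fv_eq he, fv_eq he]
    exact hH.k2 ν c n hv
  · intro n c ν hv
    rw [fv_eq he]
    exact hH.k3a ν c n hv
  · intro n c ν hv
    exact hH.k3b ν c n hv
  · intro n m h
    exact tent_supp he h
  · intro m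
    exact ⟨m, fun n hn ↦ tent_big hn⟩
  · intro n m h1 h2
    simp only [tent] at h1 h2
    omega
  · intro n m h1 h2
    have hn : n = tm e m := by
      simp only [tent] at h1 h2
      omega
    have hm : 2 * tm e m + 1 ≤ m := by
      simp only [tent] at h1 h2
      omega
    have hb : n < m - 1 - tm e m := by
      simp only [tent] at h1 h2
      omega
    obtain ⟨K, hK⟩ := Comb.leaf he hm
    refine ⟨m - 1 - tm e m, hb, K, fun ν hν ↦ ?_⟩
    rw [fv_eq he, fv_eq he]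
    have := hK ν hν
    rw [hn]
    have e1 : ((m - 1 - tm e m - tm e m : ℕ) : ℤ) = (m : ℤ) - 1 - 2 * tm e m := by
      omega
    rw [e1]
    linarith

end GH.Cen
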