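import Pool.Agent.GH.Cen.Main
import Pool.Agent.GH.Cen.PotIn
import Pool.Agent.GH.Mat.Spec
import Pool.Agent.GH.Pot.Final
import Pool.Agent.GH.NP
import Pool.Agent.GH.GaussN

/-!
# The theorem on the two discs from GH-POT
-/

open Filter Topology Polynomial

noncomputable section

namespace GH.Cen

theorem eval₂_minor {S K : Type*} [CommRing S] [CommRing K] (φ : S →+* K) (y : K)
    (M : ℕ → ℕ → S[X]) {n : ℕ} (a b : Fin n → ℕ) :
    (Pot.minor M a b).eval₂ φ y =
      (Matrix.of fun i j ↦ (M (a i) (b j)).eval₂ φ y).det := by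
  unfold Pot.minor
  rw [← Polynomial.coe_eval₂RingHom, RingHom.map_det]
  rfl

theorem norm_MM_le (hEval : Mat.SpEval) (hEight : Mat.SpEight) {e : ℕ} (he : e ≤ 1) {y : C2}
    (hy : ‖y‖ ≤ 1) (a b : ℕ) : ‖MM e y (a + 1) (b + 1)‖ ≤ (1 / 8 : ℝ) ^ (b + 1) := by
  rw [← hEval C2 iota y e a b he]
  obtain ⟨Q, hQ⟩ := hEight e a b he
  rw [hQ, eval₂_mul, eval₂_C, norm_mul]
  have h8 : ‖iota ((8 : ℤ_[2]) ^ (b + 1))‖ = (1 / 8 : ℝ) ^ (b + 1) := by
    rw [map_pow, norm_pow]
    congr 1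
    rw [map_ofNat, show (8 : C2) = 2 ^ 3 by norm_num, norm_pow, norm_two]
    norm_num
  have hQ1 : ‖Q.eval₂ iota y‖ ≤ 1 := by
    rw [Polynomial.eval₂_eq_sum_range]
    refine ud_sum_le _ _ zero_le_one fun i _ ↦ ?_
    rw [norm_mul, norm_pow, gn_norm_iota]
    exact mul_le_one₀ (PadicInt.norm_le_one _) (by positivity) (pow_le_one₀ (norm_nonneg _) hy)
  rw [h8]
  exact mul_le_of_le_one_right (by positivity) hQ1

theorem cpt_MM (hEval : Mat.SpEval) (hEight : Mat.SpEight) {e : ℕ} (he : e ≤ 1) {y : C2}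
    (hy : ‖y‖ ≤ 1) : Cpt (fun _ ↦ 1) (fun j ↦ (1 / 8 : ℝ) ^ (j + 1)) (sh (MM e y)) where
  pos := fun _ ↦ one_pos
  lim := by
    rw [Nat.cofinite_eq_atTop]
    exact (tendsto_pow_atTop_nhds_zero_of_lt_one (by norm_num) (by norm_num)).comp
      (tendsto_add_atTop_nat 1)
  le := fun i j ↦ by
    rw [one_mul, one_mul]
    exact norm_MM_le hEval hEight he hy i j

theorem pot (hEval : Mat.SpEval) (hEight : Mat.SpEight) (hMat : Mat.SpMat) : PotStatement := by
  intro e he y hy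
  obtain ⟨h, hC⟩ := potComb he
  have hM := hMat e he
  have hφ : ∀ z : ℤ_[2], ‖iota z‖ = ‖z‖ := gn_norm_iota
  have hlead : ∀ n, (Pot.lead (Mat.PM e) n).eval₂ iota y = DD e y n := by
    intro n
    unfold Pot.lead
    rw [eval₂_minor]
    unfold DD blk
    congr 1
    ext i j
    simp only [Matrix.of_apply]
    exact hEval C2 iota y e i j he
  have hmin : ∀ {n : ℕ} (a b : Fin n → ℕ), (Pot.minor (Mat.PM e) a b).eval₂ iota y =
      (Matrix.of fun i j : Fin n ↦ MM e y (a i + 1) (b j + 1)).det := by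
    intro n a b
    rw [eval₂_minor]
    congr 1
    ext i j
    simp only [Matrix.of_apply]
    exact hEval C2 iota y e (a i) (b j) he
  refine newtonPolygon_fred (by norm_num) (cpt_MM hEval hEight he hy) (DD e y) (fun n ↦ rfl)
    ?_ ?_
  · intro A r hA hr hb n a b
    rw [← hmin]
    exact Pot.final_weak hC hM iota hφ hy hA hr (fun k ↦ by rw [hlead]; exact hb k) a b
  · intro A r hA hr n hn hb a b hab
    rw [← hmin]
    exact Pot.final_strict hC hM iota hφ hy hA hr (by rw [hlead]; exact hn)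
      (fun k hk ↦ by rw [hlead]; exact hb k hk) a b hab

end GH.Cen
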