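import Pool.Agent.GH.Cen.Defs

/-!
# The tent form of `f`
-/

noncomputable section

namespace GH.Cen

theorem tent_zero (e m : ℕ) : tent e m 0 = 0 := by
  unfold tent; omega

theorem tent_supp {e : ℕ} (he : e ≤ 1) {m n : ℕ} (h : 3 * n + 2 ≤ m) : tent e m n = 0 := by
  unfold tent tm; omega

theorem tent_big {e : ℕ} {m n : ℕ} (h : m ≤ n) : tent e m n = 0 := by
  unfold tent tm; omega

theorem tent_succ {e : ℕ} (he : e ≤ 1) (m n : ℕ) :
    (tent e m (n + 1) : ℤ) = tent e m n +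
      (if 2 * (n + 1) + 1 ≤ m ∧ m ≤ 3 * (n + 1) - 1 + e then 1 else 0) -
      (if (3 * (n + 1) - e) / 2 + 1 ≤ m ∧ m ≤ 2 * (n + 1) - 1 then 1 else 0) := by
  unfold tent tm
  split_ifs <;> omega

theorem B_succ (e n : ℕ) : B e (n + 1) = B e n + (3 * (n + 1) + (n + 1 + e) / 2) := by
  unfold B
  rw [Finset.sum_Icc_succ_top (by omega)]

theorem f_succ (e ν : ℕ) (c : ℤ) (n : ℕ) : f e ν c (n + 1) = f e ν c n + inc e ν c (n + 1) := by
  unfold f
  rw [Finset.sum_Icc_succ_top (by omega)]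

theorem sum_ind {M a b : ℕ} (hb : b < M) (g : ℕ → ℤ) :
    ∑ m ∈ Finset.range M, (if a ≤ m ∧ m ≤ b then (1 : ℤ) else 0) * g m =
      ∑ m ∈ Finset.Icc a b, g m := by
  simp only [ite_mul, one_mul, zero_mul]
  rw [← Finset.sum_filter]
  apply Finset.sum_congr _ fun _ _ ↦ rfl
  ext m
  simp only [Finset.mem_filter, Finset.mem_range, Finset.mem_Icc]
  omega

theorem f_eq_tent_aux {e : ℕ} (he : e ≤ 1) (ν : ℕ) (c : ℤ) (M n : ℕ) (h : 3 * n + 2 ≤ M) :
    f e ν c n = B e n + ∑ m ∈ Finset.range M, (tent e m n : ℤ) * tau 2 ν c m := by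
  induction n with
  | zero => simp [f, B, tent_zero]
  | succ n ih =>
    rw [f_succ, ih (by omega), B_succ, inc]
    have h1 : ∑ m ∈ Finset.range M, (tent e m (n + 1) : ℤ) * tau 2 ν c m =
        ∑ m ∈ Finset.range M, (tent e m n : ℤ) * tau 2 ν c m +
        ∑ m ∈ Finset.range M, (if 2 * (n + 1) + 1 ≤ m ∧ m ≤ 3 * (n + 1) - 1 + e then (1 : ℤ)
          else 0) * tau 2 ν c m -
        ∑ m ∈ Finset.range M, (if (3 * (n + 1) - e) / 2 + 1 ≤ m ∧ m ≤ 2 * (n + 1) - 1 then (1 : ℤ)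
          else 0) * tau 2 ν c m := by
      rw [← Finset.sum_add_distrib, ← Finset.sum_sub_distrib]
      refine Finset.sum_congr rfl fun m _ ↦ ?_
      rw [tent_succ he]
      ring
    rw [h1, sum_ind (by omega) fun m ↦ ((tau 2 ν c m : ℕ) : ℤ),
      sum_ind (by omega) fun m ↦ ((tau 2 ν c m : ℕ) : ℤ)]
    push_cast
    ring

theorem f_eq_tent {e : ℕ} (he : e ≤ 1) (ν : ℕ) (c : ℤ) (n : ℕ) :
    f e ν c n = B e n + ∑ m ∈ Finset.range (3 * n + 2), (tent e m n : ℤ) * tau 2 ν c m :=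
  f_eq_tent_aux he ν c _ n le_rfl

end GH.Cen
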